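import Mathlib

/-!
# Finitely supported measures on groups, convolution powers and laws of words
-/

namespace Pool.Agent.Q93.RW

open scoped BigOperators

set_option linter.unusedSectionVars false

noncomputable section

variable {G : Type} [Group G]

/-- Convolution of finitely supported (signed) measures. -/
def conv (μ ν : G →₀ ℝ) : G →₀ ℝ :=
  μ.sum fun g r => ν.sum fun h s => Finsupp.single (g * h) (r * s)

/-- The convolution power `μ^{*n}`. -/
def convPow (μ : G →₀ ℝ) : ℕ → (G →₀ ℝ)
  | 0 => Finsupp.single 1 1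
  | n + 1 => conv (convPow μ n) μ

/-- The probability that `d` independent random elements with law `ν` satisfy `w = 1`. -/
def lawProb (ν : G →₀ ℝ) {d : ℕ} (w : FreeGroup (Fin d)) : ℝ := by
  classical
  exact ∑ g ∈ Fintype.piFinset (fun _ : Fin d => ν.support),
    if FreeGroup.lift g w = 1 then ∏ i, ν (g i) else 0

/-- The expectation of `F` under `ν`. -/
def ex {α : Type} (ν : α →₀ ℝ) (F : α → ℝ) : ℝ := ν.sum fun g r => r * F g

theorem ex_conv (μ ν : G →₀ ℝ) (F : G → ℝ) :
    ex (conv μ ν) F = ex μ (fun g => ex ν (fun h => F (g * h))) := by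
  unfold ex conv
  rw [Finsupp.sum_sum_index (by simp) (by intros; ring)]
  refine Finsupp.sum_congr fun g _ => ?_
  rw [Finsupp.sum_sum_index (by simp) (by intros; ring), Finsupp.mul_sum]
  refine Finsupp.sum_congr fun h _ => ?_
  rw [Finsupp.sum_single_index (by simp)]
  ring

/-- iterated expectation over `d` independent variables. -/
def exd {α : Type} (ν : α →₀ ℝ) : (d : ℕ) → ((Fin d → α) → ℝ) → ℝ
  | 0, F => F ![]
  | d + 1, F => ex ν (fun a => exd ν d (fun g => F (Fin.cons a g)))

theorem sum_piFinset_succ {α : Type} [DecidableEq α] (s : Finset α) (d : ℕ)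
    (f : (Fin (d + 1) → α) → ℝ) :
    ∑ g ∈ Fintype.piFinset (fun _ : Fin (d + 1) => s), f g =
      ∑ a ∈ s, ∑ g ∈ Fintype.piFinset (fun _ : Fin d => s), f (Fin.cons a g) := by
  rw [← Finset.sum_product']
  refine Finset.sum_bij' (fun g _ => (g 0, Fin.tail g)) (fun x _ => Fin.cons x.1 x.2) ?_ ?_ ?_ ?_ ?_
  · intro g hg
    rw [Fintype.mem_piFinset] at hg
    rw [Finset.mem_product, Fintype.mem_piFinset]
    exact ⟨hg 0, fun i => hg i.succ⟩
  · intro x hx
    rw [Finset.mem_product, Fintype.mem_piFinset] at hx
    rw [Fintype.mem_piFinset]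
    intro i
    refine Fin.cases ?_ (fun j => ?_) i
    · simpa using hx.1
    · simpa using hx.2 j
  · intro g _
    simp
  · intro x _
    simp
  · intro g _
    simp

theorem exd_eq {α : Type} [DecidableEq α] (ν : α →₀ ℝ) (d : ℕ) (F : (Fin d → α) → ℝ) :
    exd ν d F = ∑ g ∈ Fintype.piFinset (fun _ : Fin d => ν.support), F g * ∏ i, ν (g i) := by
  induction d with
  | zero =>
    simp only [exd]
    have : Fintype.piFinset (fun _ : Fin 0 => ν.support) = {![]} := by
      ext g
      simp only [Fintype.mem_piFinset, Finset.mem_singleton]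
      constructor
      · intro _; exact Subsingleton.elim _ _
      · intro _ i; exact i.elim0
    rw [this, Finset.sum_singleton]
    simp
  | succ d ih =>
    simp only [exd]
    rw [sum_piFinset_succ]
    unfold ex
    rw [Finsupp.sum]
    refine Finset.sum_congr rfl fun a _ => ?_
    show ν a * exd ν d (fun g => F (Fin.cons a g)) = _
    rw [ih, Finset.mul_sum]
    refine Finset.sum_congr rfl fun g _ => ?_
    rw [Fin.prod_univ_succ]
    simp only [Fin.cons_zero, Fin.cons_succ]
    ring

open Classical in
theorem lawProb_eq (ν : G →₀ ℝ) {d : ℕ} (w : FreeGroup (Fin d)) :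
    lawProb ν w = exd ν d (fun g => if FreeGroup.lift g w = 1 then 1 else 0) := by
  rw [exd_eq]
  unfold lawProb
  refine Finset.sum_congr (by congr) fun g _ => ?_
  split_ifs <;> simp

/-- An expectation functional. -/
structure IsExp {α : Type} (E : (α → ℝ) →ₗ[ℝ] ℝ) : Prop where
  nonneg : ∀ F : α → ℝ, (∀ a, 0 ≤ F a) → 0 ≤ E F
  one : E (fun _ => 1) = 1

theorem IsExp.const {α : Type} {E : (α → ℝ) →ₗ[ℝ] ℝ} (hE : IsExp E) (c : ℝ) :
    E (fun _ => c) = c := by
  have : (fun _ : α => c) = c • (fun _ : α => (1 : ℝ)) := by ext; simp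
  rw [this, map_smul, hE.one]; simp

theorem IsExp.mono {α : Type} {E : (α → ℝ) →ₗ[ℝ] ℝ} (hE : IsExp E) {F F' : α → ℝ}
    (h : ∀ a, F a ≤ F' a) : E F ≤ E F' := by
  have h1 := hE.nonneg (F' - F) (fun a => sub_nonneg.mpr (h a))
  rw [map_sub] at h1
  linarith

theorem IsExp.le_const {α : Type} {E : (α → ℝ) →ₗ[ℝ] ℝ} (hE : IsExp E) {F : α → ℝ} {c : ℝ}
    (h : ∀ a, F a ≤ c) : E F ≤ c := (hE.mono h).trans (hE.const c).le

theorem IsExp.const_le {α : Type} {E : (α → ℝ) →ₗ[ℝ] ℝ} (hE : IsExp E) {F : α → ℝ} {c : ℝ}
    (h : ∀ a, c ≤ F a) : c ≤ E F := (hE.const c).ge.trans (hE.mono h)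

/-! ### The wreath product -/

/-- The unrestricted wreath product `H ≀ ℤ`. -/
@[ext] structure W (H : Type) where
  lamp : ℤ → H
  pos : ℤ

variable {H : Type} [Group H]

instance : Mul (W H) := ⟨fun a b => ⟨fun p => a.lamp p * b.lamp (p - a.pos), a.pos + b.pos⟩⟩
instance : One (W H) := ⟨⟨fun _ => 1, 0⟩⟩
instance : Inv (W H) := ⟨fun a => ⟨fun p => (a.lamp (p + a.pos))⁻¹, -a.pos⟩⟩

theorem mul_lamp (a b : W H) (p : ℤ) : (a * b).lamp p = a.lamp p * b.lamp (p - a.pos) := rfl
theorem mul_pos (a b : W H) : (a * b).pos = a.pos + b.pos := rfl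
theorem one_lamp (p : ℤ) : (1 : W H).lamp p = 1 := rfl
theorem one_pos : (1 : W H).pos = 0 := rfl
theorem inv_lamp (a : W H) (p : ℤ) : (a⁻¹).lamp p = (a.lamp (p + a.pos))⁻¹ := rfl
theorem inv_pos (a : W H) : (a⁻¹).pos = - a.pos := rfl

instance : Group (W H) where
  mul_assoc a b c := by
    ext p
    · simp only [mul_lamp, mul_pos, mul_assoc]
      congr 3; ring_nf
    · simp only [mul_pos]; ring
  one_mul a := by
    ext p
    · simp [mul_lamp, one_lamp, one_pos]
    · simp [mul_pos, one_pos]
  mul_one a := by
    ext p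
    · simp [mul_lamp, one_lamp]
    · simp [mul_pos, one_pos]
  inv_mul_cancel a := by
    ext p
    · simp only [mul_lamp, inv_lamp, inv_pos, one_lamp, sub_neg_eq_add]
      exact inv_mul_cancel _
    · simp [mul_pos, inv_pos, one_pos]

/-- The step element: put `h` at the current position, move by `e`, put `h'` at the new position
(the identity if `e = 0`). -/
def stepW (e : ℤ) (h h' : H) : W H :=
  if e = 0 then 1 else ⟨Pi.mulSingle 0 h * Pi.mulSingle e h', e⟩

variable {M : Type} [Fintype M] [Nonempty M] (mv : M → ℤ)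

/-- The position after a list of moves (most recent move first). -/
def posL : List M → ℤ
  | [] => 0
  | m :: L => posL L + mv m

/-- The sites visited. -/
def vis : List M → ℤ → Prop
  | [], _ => False
  | m :: L, p => vis L p ∨ (mv m ≠ 0 ∧ (p = posL mv L ∨ p = posL mv L + mv m))

variable [Fintype H]

/-- The expectation over the lamps for a given list of moves. -/
def lampEx : List M → (((ℤ → H) → ℝ) →ₗ[ℝ] ℝ)
  | [] => LinearMap.proj 1
  | m :: L => if mv m = 0 then lampEx L else
      ((Fintype.card (H × H) : ℝ)⁻¹) • ∑ x : H × H, (lampEx L) ∘ₗ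
        LinearMap.funLeft ℝ ℝ (fun f : ℤ → H =>
          f * Pi.mulSingle (posL mv L) x.1 * Pi.mulSingle (posL mv L + mv m) x.2)

theorem lampEx_nil (F : (ℤ → H) → ℝ) : lampEx mv [] F = F 1 := rfl

theorem lampEx_cons_zero (m : M) (L : List M) (hm : mv m = 0) (F : (ℤ → H) → ℝ) :
    lampEx mv (m :: L) F = lampEx mv L F := by
  rw [lampEx, if_pos hm]

theorem lampEx_cons (m : M) (L : List M) (hm : mv m ≠ 0) (F : (ℤ → H) → ℝ) :
    lampEx mv (m :: L) F = (Fintype.card (H × H) : ℝ)⁻¹ * ∑ x : H × H,
      lampEx mv L (fun f => F (f * Pi.mulSingle (posL mv L) x.1 *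
        Pi.mulSingle (posL mv L + mv m) x.2)) := by
  rw [lampEx, if_neg hm]
  simp only [LinearMap.smul_apply, LinearMap.sum_apply, LinearMap.comp_apply, smul_eq_mul]
  rfl

theorem lampEx_isExp (L : List M) : IsExp (lampEx (H := H) mv L) := by
  induction L with
  | nil => exact ⟨fun F hF => hF 1, rfl⟩
  | cons m L ih =>
    by_cases hm : mv m = 0
    · refine ⟨fun F hF => ?_, ?_⟩
      · rw [lampEx_cons_zero mv m L hm]; exact ih.nonneg F hF
      · rw [lampEx_cons_zero mv m L hm]; exact ih.one
    · refine ⟨fun F hF => ?_, ?_⟩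
      · rw [lampEx_cons mv m L hm]
        refine mul_nonneg (by positivity) (Finset.sum_nonneg fun x _ => ?_)
        exact ih.nonneg _ fun f => hF _
      · rw [lampEx_cons mv m L hm]
        simp only [ih.one, Finset.sum_const, Finset.card_univ, nsmul_eq_mul, mul_one]
        have : (Fintype.card (H × H) : ℝ) ≠ 0 := by
          exact_mod_cast Fintype.card_ne_zero
        exact inv_mul_cancel₀ this

/-- Lamps at visited sites are uniformly distributed: invariance under multiplication. -/
theorem lampEx_invariant (L : List M) (p : ℤ) (hp : vis mv L p) (u : H) (F : (ℤ → H) → ℝ) :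
    lampEx mv L (fun f => F (f * Pi.mulSingle p u)) = lampEx mv L F := by
  induction L generalizing F with
  | nil => exact hp.elim
  | cons m L ih =>
    by_cases hm : mv m = 0
    · rw [lampEx_cons_zero mv m L hm, lampEx_cons_zero mv m L hm]
      rcases hp with hp | ⟨hm', _⟩
      · exact ih hp F
      · exact absurd hm hm'
    · rw [lampEx_cons mv m L hm, lampEx_cons mv m L hm]
      congr 1
      have hXX : posL mv L ≠ posL mv L + mv m := by omega
      by_cases h1 : p = posL mv L + mv m
      · subst h1
        -- absorb in the second coordinate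
        refine Fintype.sum_equiv ((Equiv.refl H).prodCongr (Equiv.mulRight u)) _ _ ?_
        intro x
        congr 1
        ext f
        congr 1
        simp only [Equiv.prodCongr_apply, Prod.map, Equiv.refl_apply, Equiv.coe_mulRight]
        rw [Pi.mulSingle_mul]
        simp only [mul_assoc]
      · by_cases h2 : p = posL mv L
        · subst h2
          refine Fintype.sum_equiv ((Equiv.mulRight u).prodCongr (Equiv.refl H)) _ _ ?_
          intro x
          congr 1
          ext f
          congr 1
          simp only [Equiv.prodCongr_apply, Prod.map, Equiv.refl_apply, Equiv.coe_mulRight]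
          rw [Pi.mulSingle_mul]
          have hc : (Pi.mulSingle (posL mv L + mv m) x.2 * Pi.mulSingle (posL mv L) u : ℤ → H) =
              Pi.mulSingle (posL mv L) u * Pi.mulSingle (posL mv L + mv m) x.2 :=
            Pi.mulSingle_commute (f := fun _ : ℤ => H) hXX.symm x.2 u
          simp only [mul_assoc]
          rw [hc]
        · have hpL : vis mv L p := by
            rcases hp with hp | ⟨_, h | h⟩
            · exact hp
            · exact absurd h h2
            · exact absurd h h1
          refine Finset.sum_congr rfl fun x _ => ?_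
          have hc1 : (Pi.mulSingle (posL mv L + mv m) x.2 * Pi.mulSingle p u : ℤ → H) =
              Pi.mulSingle p u * Pi.mulSingle (posL mv L + mv m) x.2 :=
            Pi.mulSingle_commute (f := fun _ : ℤ => H) (Ne.symm h1) x.2 u
          have hc2 : (Pi.mulSingle (posL mv L) x.1 * Pi.mulSingle p u : ℤ → H) =
              Pi.mulSingle p u * Pi.mulSingle (posL mv L) x.1 :=
            Pi.mulSingle_commute (f := fun _ : ℤ => H) (Ne.symm h2) x.1 u
          have := ih hpL (fun f => F (f * Pi.mulSingle (posL mv L) x.1 *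
            Pi.mulSingle (posL mv L + mv m) x.2))
          rw [← this]
          congr 1
          ext f
          congr 1
          simp only [mul_assoc]
          rw [hc1, ← mul_assoc (Pi.mulSingle (posL mv L) x.1 : ℤ → H), hc2]
          simp only [mul_assoc]

/-- Restriction of a lamp function to a finite set of sites. -/
def restr (P : Finset ℤ) (u : ℤ → H) : ℤ → H := fun q => if q ∈ P then u q else 1

theorem lampEx_invariant_finset (L : List M) (P : Finset ℤ) (hP : ∀ p ∈ P, vis mv L p)
    (u : ℤ → H) (F : (ℤ → H) → ℝ) :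
    lampEx mv L (fun f => F (f * restr P u)) = lampEx mv L F := by
  classical
  induction P using Finset.induction_on generalizing F with
  | empty =>
    have : restr (∅ : Finset ℤ) u = 1 := by ext q; simp [restr]
    simp only [this, mul_one]
  | @insert a P ha ih =>
    have hr : restr (insert a P) u = restr P u * Pi.mulSingle a (u a) := by
      ext q
      by_cases hq : q = a
      · subst hq
        simp [restr, ha]
      · simp [restr, hq]
    rw [hr]
    have h1 := ih (fun p hp => hP p (Finset.mem_insert_of_mem hp))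
      (fun f => F (f * Pi.mulSingle a (u a)))
    have h2 := lampEx_invariant mv L a (hP a (Finset.mem_insert_self a P)) (u a) F
    rw [← h2, ← h1]
    simp only [mul_assoc]

/-- The sites between `0` and the final position are visited (nearest neighbour moves). -/
theorem vis_between (hmv : ∀ m, |mv m| ≤ 1) (L : List M) (hL : posL mv L ≠ 0) (p : ℤ)
    (h : (0 ≤ p ∧ p ≤ posL mv L) ∨ (posL mv L ≤ p ∧ p ≤ 0)) : vis mv L p := by
  induction L with
  | nil => exact absurd rfl hL
  | cons m L ih =>
    have h1 := abs_le.mp (hmv m)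
    simp only [posL] at hL h
    by_cases hm : mv m = 0
    · rw [hm, add_zero] at hL h
      exact Or.inl (ih hL h)
    · by_cases hp1 : p = posL mv L
      · exact Or.inr ⟨hm, Or.inl hp1⟩
      by_cases hp2 : p = posL mv L + mv m
      · exact Or.inr ⟨hm, Or.inr hp2⟩
      left
      by_cases h0 : posL mv L = 0
      · exfalso; omega
      · exact ih h0 (by omega)

/-- Lamps are supported in the set of visited sites: almost surely `f p = 1` for unvisited `p`. -/
theorem lampEx_support (L : List M) (F F' : (ℤ → H) → ℝ)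
    (h : ∀ f : ℤ → H, (∀ p, ¬ vis mv L p → f p = 1) → F f = F' f) :
    lampEx mv L F = lampEx mv L F' := by
  induction L generalizing F F' with
  | nil => exact h 1 (fun _ _ => rfl)
  | cons m L ih =>
    by_cases hm : mv m = 0
    · rw [lampEx_cons_zero mv m L hm, lampEx_cons_zero mv m L hm]
      refine ih F F' ?_
      intro f hf
      refine h f fun p hp => hf p fun h' => hp (Or.inl h')
    · rw [lampEx_cons mv m L hm, lampEx_cons mv m L hm]
      congr 1
      refine Finset.sum_congr rfl fun x _ => ?_
      refine ih _ _ ?_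
      intro f hf
      refine h _ fun p hp => ?_
      have h1 : ¬ vis mv L p := fun h' => hp (Or.inl h')
      have h2 : p ≠ posL mv L := fun h' => hp (Or.inr ⟨hm, Or.inl h'⟩)
      have h3 : p ≠ posL mv L + mv m := fun h' => hp (Or.inr ⟨hm, Or.inr h'⟩)
      simp [hf p h1, Pi.mulSingle_eq_of_ne h2, Pi.mulSingle_eq_of_ne h3]

/-- The expectation over `n` independent uniform moves. -/
def mvEx (M : Type) [Fintype M] : ℕ → ((List M → ℝ) →ₗ[ℝ] ℝ)
  | 0 => LinearMap.proj []
  | n + 1 => ((Fintype.card M : ℝ)⁻¹) • ∑ m : M, (mvEx M n) ∘ₗ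
      LinearMap.funLeft ℝ ℝ (fun L : List M => m :: L)

theorem mvEx_zero (Φ : List M → ℝ) : mvEx M 0 Φ = Φ [] := rfl

theorem mvEx_succ (n : ℕ) (Φ : List M → ℝ) : mvEx M (n + 1) Φ =
    mvEx M n (fun L => (Fintype.card M : ℝ)⁻¹ * ∑ m : M, Φ (m :: L)) := by
  rw [mvEx]
  simp only [LinearMap.smul_apply, LinearMap.sum_apply, LinearMap.comp_apply, smul_eq_mul]
  have : (fun L : List M => (Fintype.card M : ℝ)⁻¹ * ∑ m : M, Φ (m :: L)) =
      (Fintype.card M : ℝ)⁻¹ • ∑ m : M, (fun L : List M => Φ (m :: L)) := by
    ext L; simp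
  rw [this, map_smul, map_sum]
  rfl

theorem mvEx_isExp (n : ℕ) : IsExp (mvEx M n) := by
  induction n with
  | zero => exact ⟨fun F hF => hF [], rfl⟩
  | succ n ih =>
    refine ⟨fun F hF => ?_, ?_⟩
    · rw [mvEx_succ]
      refine ih.nonneg _ fun L => ?_
      exact mul_nonneg (by positivity) (Finset.sum_nonneg fun m _ => hF _)
    · rw [mvEx_succ]
      have : (Fintype.card M : ℝ) ≠ 0 := by exact_mod_cast Fintype.card_ne_zero
      have h2 : (fun _ : List M => (Fintype.card M : ℝ)⁻¹ * ∑ _m : M, (1 : ℝ)) = fun _ => 1 := by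
        ext L
        simp [this]
      rw [h2, ih.one]

/-- The step distribution. -/
def stepMeas (s : M × H × H → G) : G →₀ ℝ :=
  ∑ x : M × H × H, Finsupp.single (s x) (Fintype.card (M × H × H) : ℝ)⁻¹

theorem ex_stepMeas (s : M × H × H → G) (F : G → ℝ) :
    ex (stepMeas s) F = (Fintype.card (M × H × H) : ℝ)⁻¹ * ∑ x : M × H × H, F (s x) := by
  have key : ∀ t : Finset (M × H × H), ex (∑ x ∈ t, Finsupp.single (s x)
      (Fintype.card (M × H × H) : ℝ)⁻¹) F =
      (Fintype.card (M × H × H) : ℝ)⁻¹ * ∑ x ∈ t, F (s x) := by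
    intro t
    classical
    induction t using Finset.induction_on with
    | empty => simp [ex]
    | @insert a t ha ih =>
      rw [Finset.sum_insert ha, Finset.sum_insert ha]
      unfold ex at ih ⊢
      rw [Finsupp.sum_add_index' (by simp) (by intros; ring), ih,
        Finsupp.sum_single_index (by simp)]
      ring
  exact key Finset.univ

/-- **Reduction.** The expectation of a function of the wreath product coordinates. -/
theorem ex_convPow (π : G →* W H) (s : M × H × H → G)
    (hs : ∀ x : M × H × H, π (s x) = stepW (mv x.1) x.2.1 x.2.2) (n : ℕ) (F : W H → ℝ) :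
    ex (convPow (stepMeas s) n) (fun g => F (π g)) =
      mvEx M n (fun L => lampEx mv L (fun f => F ⟨f, posL mv L⟩)) := by
  induction n generalizing F with
  | zero =>
    rw [mvEx_zero, lampEx_nil]
    simp only [convPow, ex]
    rw [Finsupp.sum_single_index (by simp), map_one, one_mul]
    rfl
  | succ n ih =>
    rw [convPow, ex_conv]
    have h1 : (fun g => ex (stepMeas s) (fun h => F (π (g * h)))) = fun g =>
        (fun a : W H => (Fintype.card (M × H × H) : ℝ)⁻¹ * ∑ x : M × H × H,
          F (a * stepW (mv x.1) x.2.1 x.2.2)) (π g) := by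
      ext g
      rw [ex_stepMeas]
      simp only [map_mul, hs]
    rw [h1]
    refine (ih (fun a : W H => (Fintype.card (M × H × H) : ℝ)⁻¹ * ∑ x : M × H × H,
          F (a * stepW (mv x.1) x.2.1 x.2.2))).trans ?_
    rw [mvEx_succ]
    congr 1
    ext L
    -- compute
    have hcard : (Fintype.card (M × H × H) : ℝ)⁻¹ =
        (Fintype.card M : ℝ)⁻¹ * (Fintype.card (H × H) : ℝ)⁻¹ := by
      rw [Fintype.card_prod M (H × H), Nat.cast_mul, mul_inv]
    have h2 : (fun f : ℤ → H => (Fintype.card (M × H × H) : ℝ)⁻¹ * ∑ x : M × H × H,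
          F (⟨f, posL mv L⟩ * stepW (mv x.1) x.2.1 x.2.2)) =
        (Fintype.card M : ℝ)⁻¹ • ∑ m : M, (fun f : ℤ → H => (Fintype.card (H × H) : ℝ)⁻¹ *
          ∑ x : H × H, F (⟨f, posL mv L⟩ * stepW (mv m) x.1 x.2)) := by
      ext f
      rw [Fintype.sum_prod_type, hcard]
      simp only [Pi.smul_apply, Finset.sum_apply, smul_eq_mul]
      rw [mul_assoc, Finset.mul_sum]
    rw [h2, map_smul, map_sum, smul_eq_mul]
    congr 1
    refine Finset.sum_congr rfl fun m _ => ?_
    by_cases hm : mv m = 0
    · rw [lampEx_cons_zero mv m L hm]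
      congr 1
      ext f
      simp only [posL, hm, add_zero, stepW, if_true, mul_one, Finset.sum_const, Finset.card_univ,
        nsmul_eq_mul]
      have : (Fintype.card (H × H) : ℝ) ≠ 0 := by exact_mod_cast Fintype.card_ne_zero
      rw [inv_mul_cancel_left₀ this]
    · rw [lampEx_cons mv m L hm]
      have h3 : (fun f : ℤ → H => (Fintype.card (H × H) : ℝ)⁻¹ *
          ∑ x : H × H, F (⟨f, posL mv L⟩ * stepW (mv m) x.1 x.2)) =
          (Fintype.card (H × H) : ℝ)⁻¹ • ∑ x : H × H, (fun f : ℤ → H =>
            F (⟨f, posL mv L⟩ * stepW (mv m) x.1 x.2)) := by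
        ext f; simp
      rw [h3, map_smul, map_sum, smul_eq_mul]
      congr 1
      refine Finset.sum_congr rfl fun x _ => ?_
      congr 1
      ext f
      congr 1
      ext q
      · simp only [mul_lamp, stepW, if_neg hm, Pi.mul_apply, mul_assoc]
        congr 2
        · simp only [Pi.mulSingle_apply]
          congr 1
          simp only [eq_iff_iff]
          constructor <;> intro h <;> omega
        · simp only [Pi.mulSingle_apply]
          congr 1
          simp only [eq_iff_iff]
          constructor <;> intro h <;> omega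
      · simp only [mul_pos, stepW, if_neg hm, posL]

end

end Pool.Agent.Q93.RW
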