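import Pool.Agent.Q93.RW.Walk

/-!
# The word `[[x, y], z [x', y'] z⁻¹]` on `H ≀ ℤ`: drift versus no drift

Variable order: `a0 = y`, `a1 = y'`, `a2 = z`, `a3 = x`, `a4 = x'`.
-/

namespace Pool.Agent.Q93.RW

open Real Filter Topology

set_option linter.unusedSectionVars false

noncomputable section

variable {H : Type} [Group H] [Fintype H]

/-- The word map vanishes. -/
def Q (a0 a1 a2 a3 a4 : W H) : Prop := cm (cm a3 a0) (a2 * cm a4 a1 * a2⁻¹) = 1

theorem Q_iff (a0 a1 a2 a3 a4 : W H) : Q a0 a1 a2 a3 a4 ↔ ∀ p,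
    (cm a3 a0).lamp p * (a2.lamp p * (cm a4 a1).lamp (p - a2.pos) * (a2.lamp p)⁻¹) =
    (a2.lamp p * (cm a4 a1).lamp (p - a2.pos) * (a2.lamp p)⁻¹) * (cm a3 a0).lamp p := by
  unfold Q
  rw [comm_eq_one_iff _ _ (comm_pos _ _) (conj_pos _ _ (comm_pos _ _))]
  simp only [conj_lamp _ _ (comm_pos _ _)]

/-! ### Lower bound without drift -/

theorem Q_of_good {R : ℕ} {a0 a1 a2 a3 a4 : W H} (h0 : Good R a0) (h1 : Good R a1)
    (h2 : ((4 * R : ℕ) : ℤ) < a2.pos) (h3 : Good R a3) (h4 : Good R a4) : Q a0 a1 a2 a3 a4 := by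
  rw [Q_iff]
  intro p
  have hsupp : ∀ x y : W H, Good R x → Good R y → ∀ q : ℤ, (2 * R : ℤ) < |q| →
      (cm x y).lamp q = 1 := by
    intro x y hx hy q hq
    rw [comm_lamp]
    have e1 := abs_le.mp hx.2
    have e2 := abs_le.mp hy.2
    have hcase : ∀ r : ℤ, |r| ≤ R → (R : ℤ) < |q - r| := by
      intro r hr
      have := abs_sub_abs_le_abs_sub q r
      omega
    rw [hx.1 q (by omega), hy.1 (q - x.pos) (hcase _ hx.2), hx.1 (q - y.pos) (hcase _ hy.2),
      hy.1 q (by omega)]
    simp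
  by_cases hp : (2 * R : ℤ) < |p|
  · rw [hsupp a3 a0 h3 h0 p hp]; simp
  · have : (2 * R : ℤ) < |p - a2.pos| := by
      push_cast at h2
      have h5 := abs_le.mp (not_lt.mp hp)
      rw [lt_abs]
      right; omega
    rw [hsupp a4 a1 h4 h1 _ this]; simp

open Classical in
theorem lower_sym (R n : ℕ) (hR : 1 ≤ R) (hn : n = 288 * (R + 1) ^ 2) :
    (exp (-(288 * π ^ 2 / 8))) ^ 4 * (1 / 12) ≤
      T (H := H) symMv n (fun a0 => T symMv n (fun a1 => T symMv n (fun a2 => T symMv n (fun a3 =>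
        T symMv n (fun a4 => if Q a0 a1 a2 a3 a4 then (1 : ℝ) else 0))))) := by
  set g : W H → ℝ := fun a => if Good R a then 1 else 0 with hg
  set r : W H → ℝ := fun a => if ((4 * R : ℕ) : ℤ) < a.pos then 1 else 0 with hr
  have hTg : exp (-(288 * π ^ 2 / 8)) ≤ T symMv n g := by
    have h1 := lam_lower R 288 n hR hn.le
    have h2 := good_lower (H := H) R n
    push_cast at h1
    exact h1.trans h2
  have hTr : 1 / 12 ≤ T symMv n r := by
    have h1 := right_far (4 * R) n (by omega) (by rw [hn]; nlinarith)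
    have h2 := T_pos (H := H) symMv n (fun x : ℤ => if ((4 * R : ℕ) : ℤ) < x then (1 : ℝ) else 0)
    rw [hr, h2]
    exact h1
  have hg01 : ∀ a, 0 ≤ g a := fun a => by rw [hg]; simp only; split_ifs <;> norm_num
  have hTg0 : 0 ≤ T symMv n g := (T_isExp symMv n).nonneg _ hg01
  have hpt : ∀ a0 a1 a2 a3 a4 : W H, g a0 * (g a1 * (r a2 * (g a3 * g a4))) ≤
      if Q a0 a1 a2 a3 a4 then 1 else 0 := by
    intro a0 a1 a2 a3 a4
    simp only [hg, hr]
    by_cases h0 : Good R a0
    · by_cases h1 : Good R a1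
      · by_cases h2 : ((4 * R : ℕ) : ℤ) < a2.pos
        · by_cases h3 : Good R a3
          · by_cases h4 : Good R a4
            · rw [if_pos (Q_of_good h0 h1 h2 h3 h4)]
              rw [if_pos h0, if_pos h1, if_pos h2, if_pos h3, if_pos h4]; norm_num
            · rw [if_neg h4]; simp only [mul_zero]; split_ifs <;> norm_num
          · rw [if_neg h3]; simp only [mul_zero, zero_mul]; split_ifs <;> norm_num
        · rw [if_neg h2]; simp only [mul_zero, zero_mul]; split_ifs <;> norm_num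
      · rw [if_neg h1]; simp only [mul_zero, zero_mul]; split_ifs <;> norm_num
    · rw [if_neg h0]; simp only [zero_mul]; split_ifs <;> norm_num
  -- evaluate the product
  have hmulT : ∀ (c : ℝ) (F : W H → ℝ), T symMv n (fun a => F a * c) = T symMv n F * c := by
    intro c F
    have : (fun a => F a * c) = c • F := by ext a; simp [mul_comm]
    rw [this, map_smul, smul_eq_mul, mul_comm]
  have hmulT' : ∀ (c : ℝ) (F : W H → ℝ), T symMv n (fun a => c * F a) = c * T symMv n F := by
    intro c F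
    have : (fun a => c * F a) = c • F := by ext a; simp
    rw [this, map_smul, smul_eq_mul]
  have hprod : T symMv n (fun a0 => T symMv n (fun a1 => T symMv n (fun a2 => T symMv n (fun a3 =>
        T symMv n (fun a4 => g a0 * (g a1 * (r a2 * (g a3 * g a4)))))))) =
      T symMv n g * (T symMv n g * (T symMv n r * (T symMv n g * T symMv n g))) := by
    simp only [hmulT', hmulT]
  have hmono := (T_isExp (H := H) symMv n)
  have hle : T symMv n (fun a0 => T symMv n (fun a1 => T symMv n (fun a2 => T symMv n (fun a3 =>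
        T symMv n (fun a4 => g a0 * (g a1 * (r a2 * (g a3 * g a4)))))))) ≤
      T symMv n (fun a0 => T symMv n (fun a1 => T symMv n (fun a2 => T symMv n (fun a3 =>
        T symMv n (fun a4 => if Q a0 a1 a2 a3 a4 then (1 : ℝ) else 0))))) :=
    hmono.mono fun a0 => hmono.mono fun a1 => hmono.mono fun a2 => hmono.mono fun a3 =>
      hmono.mono fun a4 => hpt a0 a1 a2 a3 a4
  refine le_trans ?_ hle
  rw [hprod]
  set e := exp (-(288 * π ^ 2 / 8)) with he
  have he0 : 0 < e := exp_pos _
  calc e ^ 4 * (1 / 12) = e * (e * ((1 / 12) * (e * e))) := by ring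
    _ ≤ _ := by
      apply mul_le_mul hTg _ (by positivity) hTg0
      apply mul_le_mul hTg _ (by positivity) hTg0
      apply mul_le_mul hTr _ (by positivity) (by linarith)
      exact mul_le_mul hTg hTg he0.le hTg0

/-! ### Upper bound with drift -/

open Classical in
/-- The number of commuting pairs. -/
def K (H : Type) [Group H] [Fintype H] : ℕ :=
  (Finset.univ.filter (fun x : H × H => x.1 * x.2 = x.2 * x.1)).card

open Classical in
theorem count_site (α β γ δ : H) :
    (Finset.univ.filter (fun x : H × H => (α * (x.1)⁻¹ * β) * (γ * x.2 * δ) =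
      (γ * x.2 * δ) * (α * (x.1)⁻¹ * β))).card = K H := by
  unfold K
  refine Finset.card_bij' (fun x _ => (α * (x.1)⁻¹ * β, γ * x.2 * δ))
    (fun x _ => ((α⁻¹ * x.1 * β⁻¹)⁻¹, γ⁻¹ * x.2 * δ⁻¹)) ?_ ?_ ?_ ?_
  · intro x hx
    simpa using hx
  · intro x hx
    simp only [Finset.mem_filter, Finset.mem_univ, true_and, inv_inv] at hx ⊢
    have e1 : α * (α⁻¹ * x.1 * β⁻¹) * β = x.1 := by group
    have e2 : γ * (γ⁻¹ * x.2 * δ⁻¹) * δ = x.2 := by group
    rw [e1, e2]; exact hx
  · intro x _
    ext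
    · simp only; group
    · simp only; group
  · intro x _
    ext
    · simp only; group
    · simp only; group

/-- extension by `1` -/
def ext1 (P : Finset ℤ) (v : P → H) : ℤ → H := fun p => by
  classical exact if h : p ∈ P then v ⟨p, h⟩ else 1

theorem ext1_of_notMem {P : Finset ℤ} {v : P → H} {p : ℤ} (h : p ∉ P) : ext1 P v p = 1 := by
  unfold ext1; rw [dif_neg h]

theorem ext1_of_mem {P : Finset ℤ} {v : P → H} {p : ℤ} (h : p ∈ P) : ext1 P v p = v ⟨p, h⟩ := by
  unfold ext1; rw [dif_pos h]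

open Classical in
/-- Pointwise bound after averaging over the lamps in the window `P`. -/
theorem pointwise (P : Finset ℤ) (a0 a1 a2 : W H) (f f' : ℤ → H) (m m' : ℤ)
    (hk : ∀ p ∈ P, p + a0.pos ∉ P) (hk' : ∀ p ∈ P, p - a1.pos ∉ P) :
    ∑ U : P → H × H, (if Q a0 a1 a2
      ⟨f * (fun q => ext1 P (fun p => (U p).1) (q + a0.pos)), m⟩
      ⟨f' * (fun q => ext1 P (fun p => (U p).2) (q + a2.pos)), m'⟩ then (1 : ℝ) else 0) ≤
      (K H : ℝ) ^ P.card := by
  set α : ℤ → H := fun p => f p * a0.lamp (p - m) with hα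
  set β : ℤ → H := fun p => (f (p - a0.pos))⁻¹ * (a0.lamp p)⁻¹ with hβ
  set γ : ℤ → H := fun p => a2.lamp p * f' (p - a2.pos) with hγ
  set δ : ℤ → H := fun p => a1.lamp (p - a2.pos - m') * (f' (p - a2.pos - a1.pos))⁻¹ *
    (a1.lamp (p - a2.pos))⁻¹ * (a2.lamp p)⁻¹ with hδ
  have hsub : ∀ U : P → H × H, Q a0 a1 a2
      ⟨f * (fun q => ext1 P (fun p => (U p).1) (q + a0.pos)), m⟩
      ⟨f' * (fun q => ext1 P (fun p => (U p).2) (q + a2.pos)), m'⟩ →
      ∀ p : P, (α p * ((U p).1)⁻¹ * β p) * (γ p * (U p).2 * δ p) =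
        (γ p * (U p).2 * δ p) * (α p * ((U p).1)⁻¹ * β p) := by
    intro U hQ p
    rw [Q_iff] at hQ
    have h := hQ p
    rw [comm_lamp, comm_lamp] at h
    have e1 : ext1 P (fun p => (U p).1) ((p : ℤ) + a0.pos) = 1 := ext1_of_notMem (hk p p.2)
    have e2 : ext1 P (fun p => (U p).1) ((p : ℤ) - a0.pos + a0.pos) = (U p).1 := by
      rw [sub_add_cancel]; exact ext1_of_mem p.2
    have e3 : ext1 P (fun p => (U p).2) ((p : ℤ) - a2.pos + a2.pos) = (U p).2 := by
      rw [sub_add_cancel]; exact ext1_of_mem p.2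
    have e4 : ext1 P (fun p => (U p).2) ((p : ℤ) - a2.pos - a1.pos + a2.pos) = 1 := by
      have : (p : ℤ) - a2.pos - a1.pos + a2.pos = p - a1.pos := by ring
      rw [this]; exact ext1_of_notMem (hk' p p.2)
    simp only [Pi.mul_apply, e1, e2, e3, e4, mul_one, mul_inv_rev] at h
    simp only [hα, hβ, hγ, hδ]
    simp only [mul_assoc] at h ⊢
    exact h
  calc ∑ U : P → H × H, (if Q a0 a1 a2
      ⟨f * (fun q => ext1 P (fun p => (U p).1) (q + a0.pos)), m⟩
      ⟨f' * (fun q => ext1 P (fun p => (U p).2) (q + a2.pos)), m'⟩ then (1 : ℝ) else 0)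
      ≤ ∑ U : P → H × H, (if (∀ p : P, (α p * ((U p).1)⁻¹ * β p) * (γ p * (U p).2 * δ p) =
        (γ p * (U p).2 * δ p) * (α p * ((U p).1)⁻¹ * β p)) then (1 : ℝ) else 0) := by
        refine Finset.sum_le_sum fun U _ => ?_
        by_cases h : Q a0 a1 a2
          ⟨f * (fun q => ext1 P (fun p => (U p).1) (q + a0.pos)), m⟩
          ⟨f' * (fun q => ext1 P (fun p => (U p).2) (q + a2.pos)), m'⟩
        · rw [if_pos h, if_pos (hsub U h)]
        · rw [if_neg h]; split_ifs <;> norm_num
    _ = (K H : ℝ) ^ P.card := by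
        rw [Finset.sum_boole]
        have : (Finset.univ.filter (fun U : P → H × H => ∀ p : P,
            (α p * ((U p).1)⁻¹ * β p) * (γ p * (U p).2 * δ p) =
            (γ p * (U p).2 * δ p) * (α p * ((U p).1)⁻¹ * β p))) =
            Fintype.piFinset (fun p : P => Finset.univ.filter (fun x : H × H =>
              (α p * (x.1)⁻¹ * β p) * (γ p * x.2 * δ p) =
              (γ p * x.2 * δ p) * (α p * (x.1)⁻¹ * β p))) := by
          ext U
          simp [Fintype.mem_piFinset]
        rw [this, Fintype.card_piFinset]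
        simp only [count_site]
        rw [Finset.prod_const, Finset.card_univ, Fintype.card_coe]
        push_cast
        rfl

/-- The drift condition on positions. -/
def DG (n : ℕ) (x : ℤ) : Prop := |(x : ℝ) - n / 4| ≤ n / 40

open Classical in
/-- For fixed outer variables with good positions and a window `P`. -/
theorem inner_bound (n : ℕ) (P : Finset ℤ) (a0 a1 a2 : W H)
    (hk : ∀ p ∈ P, p + a0.pos ∉ P) (hk' : ∀ p ∈ P, p - a1.pos ∉ P)
    (h0 : ∀ x : ℤ, DG n x → ∀ p ∈ P, 0 ≤ p - a0.pos ∧ p - a0.pos ≤ x ∧ x ≠ 0)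
    (h2 : ∀ x : ℤ, DG n x → ∀ p ∈ P, 0 ≤ p - a2.pos ∧ p - a2.pos ≤ x ∧ x ≠ 0) :
    T driMv n (fun a3 => T driMv n (fun a4 => if DG n a3.pos ∧ DG n a4.pos ∧
      Q a0 a1 a2 a3 a4 then (1 : ℝ) else 0)) ≤ ((K H : ℝ) / (Fintype.card (H × H) : ℝ)) ^ P.card := by
  have hcard : (0 : ℝ) < Fintype.card (H × H) := by exact_mod_cast Fintype.card_pos
  -- for a list of moves in the good set the sites are visited
  have hvis0 : ∀ L : List (Fin 4), DG n (posL driMv L) → ∀ q ∈ P.image (fun p => p - a0.pos),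
      vis driMv L q := by
    intro L hL q hq
    obtain ⟨p, hp, rfl⟩ := Finset.mem_image.mp hq
    obtain ⟨h1, h2', h3⟩ := h0 _ hL p hp
    exact vis_between driMv driMv_abs L h3 _ (Or.inl ⟨h1, h2'⟩)
  have hvis2 : ∀ L : List (Fin 4), DG n (posL driMv L) → ∀ q ∈ P.image (fun p => p - a2.pos),
      vis driMv L q := by
    intro L hL q hq
    obtain ⟨p, hp, rfl⟩ := Finset.mem_image.mp hq
    obtain ⟨h1, h2', h3⟩ := h2 _ hL p hp
    exact vis_between driMv driMv_abs L h3 _ (Or.inl ⟨h1, h2'⟩)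
  have hrestr : ∀ (c : ℤ) (v : P → H), (fun q => ext1 P v (q + c)) =
      restr (P.image (fun p => p - c)) (fun q => ext1 P v (q + c)) := by
    intro c v
    ext q
    unfold restr
    split_ifs with h
    · rfl
    · apply ext1_of_notMem
      intro hq
      apply h
      exact Finset.mem_image.mpr ⟨q + c, hq, by ring⟩
  set Ψ : ℤ → ℤ → (ℤ → H) → (ℤ → H) → ℝ := fun m m' f f' =>
    if Q a0 a1 a2 ⟨f, m⟩ ⟨f', m'⟩ then 1 else 0 with hΨ
  rw [T_apply]
  refine (mvEx_isExp n).le_const fun L => ?_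
  by_cases hL : DG n (posL driMv L)
  swap
  · have : (fun f : ℤ → H => T driMv n (fun a4 : W H => if DG n (posL driMv L) ∧
        DG n a4.pos ∧ Q a0 a1 a2 ⟨f, posL driMv L⟩ a4 then (1 : ℝ) else 0)) = fun _ => 0 := by
      ext f
      have : (fun a4 : W H => if DG n (posL driMv L) ∧
        DG n a4.pos ∧ Q a0 a1 a2 ⟨f, posL driMv L⟩ a4 then (1 : ℝ) else 0) = fun _ => 0 := by
        ext a4
        rw [if_neg (fun h => hL h.1)]
      rw [this, (T_isExp driMv n).const]
    rw [this, (lampEx_isExp driMv L).const]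
    positivity
  -- the inner functional
  set Φ : (ℤ → H) → ℝ := fun f => T driMv n (fun a4 : W H => if DG n (posL driMv L) ∧
        DG n a4.pos ∧ Q a0 a1 a2 ⟨f, posL driMv L⟩ a4 then (1 : ℝ) else 0) with hΦ
  have hinv : ∀ U : P → H × H, lampEx driMv L Φ = lampEx driMv L (fun f => Φ (f *
      (fun q => ext1 P (fun p => (U p).1) (q + a0.pos)))) := by
    intro U
    rw [hrestr]
    exact (lampEx_invariant_finset driMv L _ (hvis0 L hL) _ Φ).symm
  have hcardU : (0 : ℝ) < Fintype.card (P → H × H) := by exact_mod_cast Fintype.card_pos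
  have havg : lampEx driMv L Φ = (Fintype.card (P → H × H) : ℝ)⁻¹ * lampEx driMv L (fun f =>
      ∑ U : P → H × H, Φ (f * (fun q => ext1 P (fun p => (U p).1) (q + a0.pos)))) := by
    have e1 : (fun f => ∑ U : P → H × H, Φ (f *
        (fun q => ext1 P (fun p => (U p).1) (q + a0.pos)))) =
        ∑ U : P → H × H, (fun f => Φ (f *
        (fun q => ext1 P (fun p => (U p).1) (q + a0.pos)))) := by
      ext f; simp
    rw [e1, map_sum]
    have e2 : ∀ U ∈ (Finset.univ : Finset (P → H × H)), lampEx driMv L (fun f => Φ (f *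
        (fun q => ext1 P (fun p => (U p).1) (q + a0.pos)))) = lampEx driMv L Φ :=
      fun U _ => (hinv U).symm
    rw [Finset.sum_congr rfl e2, Finset.sum_const, Finset.card_univ, nsmul_eq_mul]
    rw [inv_mul_cancel_left₀ hcardU.ne']
  have hLHS : lampEx driMv L (fun f => T driMv n (fun a4 : W H => if DG n
      (⟨f, posL driMv L⟩ : W H).pos ∧ DG n a4.pos ∧ Q a0 a1 a2 ⟨f, posL driMv L⟩ a4 then (1 : ℝ)
      else 0)) = lampEx driMv L Φ := rfl
  rw [hLHS, havg]
  have hcardU' : (Fintype.card (P → H × H) : ℝ) = (Fintype.card (H × H) : ℝ) ^ P.card := by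
    rw [Fintype.card_fun, Fintype.card_coe]; push_cast; ring
  rw [div_pow, ← hcardU', div_eq_inv_mul]
  refine mul_le_mul_of_nonneg_left ?_ (by positivity)
  refine (lampEx_isExp driMv L).le_const fun f => ?_
  -- move the sum inside
  have e3 : ∑ U : P → H × H, Φ (f * (fun q => ext1 P (fun p => (U p).1) (q + a0.pos))) =
      mvEx (Fin 4) n (fun L' => ∑ U : P → H × H, lampEx driMv L' (fun f' =>
        if DG n (posL driMv L) ∧ DG n (posL driMv L') ∧ Q a0 a1 a2
          ⟨f * (fun q => ext1 P (fun p => (U p).1) (q + a0.pos)), posL driMv L⟩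
          ⟨f', posL driMv L'⟩ then (1 : ℝ) else 0)) := by
    have : (fun L' => ∑ U : P → H × H, lampEx driMv L' (fun f' =>
        if DG n (posL driMv L) ∧ DG n (posL driMv L') ∧ Q a0 a1 a2
          ⟨f * (fun q => ext1 P (fun p => (U p).1) (q + a0.pos)), posL driMv L⟩
          ⟨f', posL driMv L'⟩ then (1 : ℝ) else 0)) = ∑ U : P → H × H, (fun L' =>
        lampEx driMv L' (fun f' =>
        if DG n (posL driMv L) ∧ DG n (posL driMv L') ∧ Q a0 a1 a2
          ⟨f * (fun q => ext1 P (fun p => (U p).1) (q + a0.pos)), posL driMv L⟩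
          ⟨f', posL driMv L'⟩ then (1 : ℝ) else 0)) := by
      ext L'; simp
    rw [this, map_sum]
    rfl
  rw [e3]
  refine (mvEx_isExp n).le_const fun L' => ?_
  by_cases hL' : DG n (posL driMv L')
  swap
  · have : ∀ U ∈ (Finset.univ : Finset (P → H × H)), lampEx driMv L' (fun f' : ℤ → H =>
        if DG n (posL driMv L) ∧ DG n (posL driMv L') ∧ Q a0 a1 a2
          ⟨f * (fun q => ext1 P (fun p => (U p).1) (q + a0.pos)), posL driMv L⟩
          ⟨f', posL driMv L'⟩ then (1 : ℝ) else 0) = 0 := by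
      intro U _
      have : (fun f' : ℤ → H =>
        if DG n (posL driMv L) ∧ DG n (posL driMv L') ∧ Q a0 a1 a2
          ⟨f * (fun q => ext1 P (fun p => (U p).1) (q + a0.pos)), posL driMv L⟩
          ⟨f', posL driMv L'⟩ then (1 : ℝ) else 0) = fun _ => 0 := by
        ext f'
        rw [if_neg (fun h => hL' h.2.1)]
      rw [this, (lampEx_isExp driMv L').const]
    rw [Finset.sum_eq_zero this]
    positivity
  -- use the invariance for the second walk
  have e4 : ∀ U ∈ (Finset.univ : Finset (P → H × H)), lampEx driMv L' (fun f' : ℤ → H =>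
        if DG n (posL driMv L) ∧ DG n (posL driMv L') ∧ Q a0 a1 a2
          ⟨f * (fun q => ext1 P (fun p => (U p).1) (q + a0.pos)), posL driMv L⟩
          ⟨f', posL driMv L'⟩ then (1 : ℝ) else 0) =
      lampEx driMv L' (fun f' : ℤ → H => if Q a0 a1 a2
          ⟨f * (fun q => ext1 P (fun p => (U p).1) (q + a0.pos)), posL driMv L⟩
          ⟨f' * (fun q => ext1 P (fun p => (U p).2) (q + a2.pos)), posL driMv L'⟩ then
            (1 : ℝ) else 0) := by
    intro U _
    refine (lampEx_invariant_finset driMv L' _ (hvis2 L' hL')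
      (fun q => ext1 P (fun p => (U p).2) (q + a2.pos)) _).symm.trans ?_
    congr 1
    ext f'
    rw [← hrestr]
    simp only [hL, hL', true_and]
  rw [Finset.sum_congr rfl e4, ← map_sum]
  refine (lampEx_isExp driMv L').le_const fun f' => ?_
  rw [Finset.sum_apply]
  exact pointwise P a0 a1 a2 f f' _ _ hk hk'

open Classical in
theorem upper_dri (n M0 : ℕ) (hn : 0 < n) (hM : 40 * (M0 + 1) ≤ n) :
    T (H := H) driMv n (fun a0 => T driMv n (fun a1 => T driMv n (fun a2 => T driMv n (fun a3 =>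
        T driMv n (fun a4 => if Q a0 a1 a2 a3 a4 then (1 : ℝ) else 0))))) ≤
      5 * (1100 / n) + ((K H : ℝ) / (Fintype.card (H × H) : ℝ)) ^ M0 := by
  set b : W H → ℝ := fun a => if DG n a.pos then 0 else 1 with hb
  set c : ℝ := ((K H : ℝ) / (Fintype.card (H × H) : ℝ)) ^ M0 with hc
  have hc0 : 0 ≤ c := by positivity
  have hexp := T_isExp (H := H) driMv n
  have hTb : T driMv n b ≤ 1100 / n := by
    have h1 := cheb_dri n hn
    have h2 := T_pos (H := H) driMv n (fun x : ℤ => if DG n x then (0 : ℝ) else 1)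
    rw [hb, h2]
    exact h1
  have hb0 : ∀ a, 0 ≤ b a := fun a => by rw [hb]; simp only; split_ifs <;> norm_num
  -- the window
  obtain ⟨P, hPcard, hP⟩ : ∃ P : Finset ℤ, P.card = M0 ∧ ∀ p ∈ P,
      (13 * (n : ℝ) / 40 ≤ p ∧ (p : ℝ) ≤ 15 * n / 40) := by
    set p0 : ℤ := ⌈13 * (n : ℝ) / 40⌉ with hp0
    refine ⟨Finset.Ico p0 (p0 + M0), by simp, ?_⟩
    intro p hp
    rw [Finset.mem_Ico] at hp
    have h1 : (13 * (n : ℝ) / 40) ≤ p0 := Int.le_ceil _
    have h2 : (p0 : ℝ) < 13 * (n : ℝ) / 40 + 1 := Int.ceil_lt_add_one _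
    have h3 : (p0 : ℝ) ≤ p := by exact_mod_cast hp.1
    have h4 : (p : ℝ) < p0 + M0 := by exact_mod_cast hp.2
    have h5 : (40 : ℝ) * (M0 + 1) ≤ n := by exact_mod_cast hM
    constructor
    · linarith
    · linarith
  have hn' : (0 : ℝ) < n := by exact_mod_cast hn
  have hDGabs : ∀ x : ℤ, DG n x → 9 * (n : ℝ) / 40 ≤ x ∧ (x : ℝ) ≤ 11 * n / 40 := by
    intro x hx
    have := abs_le.mp hx
    constructor <;> linarith [this.1, this.2]
  have hinner : ∀ a0 a1 a2 : W H, DG n a0.pos → DG n a1.pos → DG n a2.pos →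
      T driMv n (fun a3 => T driMv n (fun a4 => if DG n a3.pos ∧ DG n a4.pos ∧
      Q a0 a1 a2 a3 a4 then (1 : ℝ) else 0)) ≤ c := by
    intro a0 a1 a2 h0 h1 h2
    have e0 := hDGabs _ h0
    have e1 := hDGabs _ h1
    have e2 := hDGabs _ h2
    rw [hc, ← hPcard]
    refine inner_bound n P a0 a1 a2 ?_ ?_ ?_ ?_
    · intro p hp hp'
      have := hP p hp
      have h' := hP _ hp'
      push_cast at h'
      linarith
    · intro p hp hp'
      have := hP p hp
      have h' := hP _ hp'
      push_cast at h'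
      linarith
    · intro x hx p hp
      have ex := hDGabs _ hx
      have hpp := hP p hp
      refine ⟨?_, ?_, ?_⟩
      · have : (a0.pos : ℝ) ≤ p := by linarith
        have : a0.pos ≤ p := by exact_mod_cast this
        omega
      · have : (p : ℝ) - a0.pos ≤ x := by linarith
        exact_mod_cast this
      · intro hx0
        rw [hx0] at ex
        push_cast at ex
        linarith
    · intro x hx p hp
      have ex := hDGabs _ hx
      have hpp := hP p hp
      refine ⟨?_, ?_, ?_⟩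
      · have : (a2.pos : ℝ) ≤ p := by linarith
        have : a2.pos ≤ p := by exact_mod_cast this
        omega
      · have : (p : ℝ) - a2.pos ≤ x := by linarith
        exact_mod_cast this
      · intro hx0
        rw [hx0] at ex
        push_cast at ex
        linarith
  -- the innermost two expectations
  have h34 : ∀ a0 a1 a2 : W H, T driMv n (fun a3 => T driMv n (fun a4 =>
      if Q a0 a1 a2 a3 a4 then (1 : ℝ) else 0)) ≤
      b a0 + b a1 + b a2 + (T driMv n b + T driMv n b + c) := by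
    intro a0 a1 a2
    by_cases hgood : DG n a0.pos ∧ DG n a1.pos ∧ DG n a2.pos
    · obtain ⟨g0, g1, g2⟩ := hgood
      have hpt : ∀ a3 a4 : W H, (if Q a0 a1 a2 a3 a4 then (1 : ℝ) else 0) ≤
          b a3 + (b a4 + (if DG n a3.pos ∧ DG n a4.pos ∧ Q a0 a1 a2 a3 a4 then (1 : ℝ) else 0)) := by
        intro a3 a4
        simp only [hb]
        by_cases h3 : DG n a3.pos <;> by_cases h4 : DG n a4.pos <;>
          by_cases hQ : Q a0 a1 a2 a3 a4 <;> simp [h3, h4, hQ]
      have h1 : T driMv n (fun a3 => T driMv n (fun a4 =>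
          if Q a0 a1 a2 a3 a4 then (1 : ℝ) else 0)) ≤ T driMv n (fun a3 => T driMv n (fun a4 =>
          b a3 + (b a4 + (if DG n a3.pos ∧ DG n a4.pos ∧ Q a0 a1 a2 a3 a4 then (1 : ℝ) else 0)))) :=
        hexp.mono fun a3 => hexp.mono fun a4 => hpt a3 a4
      refine h1.trans ?_
      have h2 : ∀ a3 : W H, T driMv n (fun a4 => b a3 + (b a4 +
          (if DG n a3.pos ∧ DG n a4.pos ∧ Q a0 a1 a2 a3 a4 then (1 : ℝ) else 0))) =
          b a3 + (T driMv n b + T driMv n (fun a4 =>
            if DG n a3.pos ∧ DG n a4.pos ∧ Q a0 a1 a2 a3 a4 then (1 : ℝ) else 0)) := by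
        intro a3
        have : (fun a4 => b a3 + (b a4 +
          (if DG n a3.pos ∧ DG n a4.pos ∧ Q a0 a1 a2 a3 a4 then (1 : ℝ) else 0))) =
          (fun _ => b a3) + (b + fun a4 =>
            (if DG n a3.pos ∧ DG n a4.pos ∧ Q a0 a1 a2 a3 a4 then (1 : ℝ) else 0)) := rfl
        rw [this, map_add, map_add, hexp.const]
      simp only [h2]
      have h3 : (fun a3 => b a3 + (T driMv n b + T driMv n (fun a4 =>
            if DG n a3.pos ∧ DG n a4.pos ∧ Q a0 a1 a2 a3 a4 then (1 : ℝ) else 0))) =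
          b + ((fun _ => T driMv n b) + fun a3 => T driMv n (fun a4 =>
            if DG n a3.pos ∧ DG n a4.pos ∧ Q a0 a1 a2 a3 a4 then (1 : ℝ) else 0)) := rfl
      rw [h3, map_add, map_add, hexp.const]
      have h4 := hinner a0 a1 a2 g0 g1 g2
      have e0 := hb0 a0
      have e1 := hb0 a1
      have e2 := hb0 a2
      linarith
    · have hone : 1 ≤ b a0 + b a1 + b a2 := by
        simp only [hb]
        by_cases h0 : DG n a0.pos
        · by_cases h1 : DG n a1.pos
          · have h2 : ¬ DG n a2.pos := fun h2 => hgood ⟨h0, h1, h2⟩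
            simp [h0, h1, h2]
          · rw [if_neg h1]
            have : (0 : ℝ) ≤ (if DG n a2.pos then 0 else 1) := by split_ifs <;> norm_num
            simp only [h0, if_true]
            linarith
        · rw [if_neg h0]
          have h3 : (0 : ℝ) ≤ (if DG n a2.pos then 0 else 1) := by split_ifs <;> norm_num
          have h4 : (0 : ℝ) ≤ (if DG n a1.pos then 0 else 1) := by split_ifs <;> norm_num
          linarith
      have hle1 : T driMv n (fun a3 => T driMv n (fun a4 =>
          if Q a0 a1 a2 a3 a4 then (1 : ℝ) else 0)) ≤ 1 :=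
        hexp.le_const fun a3 => hexp.le_const fun a4 => by split_ifs <;> norm_num
      have hTb0 : 0 ≤ T driMv n b := hexp.nonneg _ hb0
      linarith
  -- the outer three
  set t : ℝ := T driMv n b with ht
  have h2 : ∀ a0 a1 : W H, T driMv n (fun a2 => T driMv n (fun a3 => T driMv n (fun a4 =>
      if Q a0 a1 a2 a3 a4 then (1 : ℝ) else 0))) ≤ b a0 + b a1 + (t + (t + t + c)) := by
    intro a0 a1
    refine (hexp.mono fun a2 => h34 a0 a1 a2).trans ?_
    have : (fun a2 => b a0 + b a1 + b a2 + (t + t + c)) =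
        (fun _ => b a0 + b a1) + (b + fun _ => (t + t + c)) := by
      ext a2; simp only [Pi.add_apply]; ring
    rw [this, map_add, map_add, hexp.const, hexp.const]
  have h1 : ∀ a0 : W H, T driMv n (fun a1 => T driMv n (fun a2 => T driMv n (fun a3 =>
      T driMv n (fun a4 => if Q a0 a1 a2 a3 a4 then (1 : ℝ) else 0)))) ≤
      b a0 + (t + (t + (t + t + c))) := by
    intro a0
    refine (hexp.mono fun a1 => h2 a0 a1).trans ?_
    have : (fun a1 => b a0 + b a1 + (t + (t + t + c))) =
        (fun _ => b a0) + (b + fun _ => (t + (t + t + c))) := by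
      ext a1; simp only [Pi.add_apply]; ring
    rw [this, map_add, map_add, hexp.const, hexp.const]
  refine (hexp.mono fun a0 => h1 a0).trans ?_
  have : (fun a0 => b a0 + (t + (t + (t + t + c)))) =
      b + fun _ => (t + (t + (t + t + c))) := rfl
  rw [this, map_add, hexp.const]
  linarith

end

end Pool.Agent.Q93.RW
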