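import Pool.Agent.Q93.RW.Basic

/-!
# Estimates for one-dimensional lazy walks
-/

namespace Pool.Agent.Q93.RW

open Real

set_option linter.unusedSectionVars false

noncomputable section

/-- Symmetric lazy moves. -/
def symMv : Fin 4 → ℤ := ![1, -1, 0, 0]

/-- Moves with drift. -/
def driMv : Fin 4 → ℤ := ![1, 1, 0, -1]

theorem symMv_abs (m : Fin 4) : |symMv m| ≤ 1 := by
  fin_cases m <;> simp [symMv]

theorem driMv_abs (m : Fin 4) : |driMv m| ≤ 1 := by
  fin_cases m <;> simp [driMv]

theorem sum_sym (Φ : List (Fin 4) → ℝ) (L : List (Fin 4)) (F : ℤ → ℝ)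
    (hF : ∀ m : Fin 4, Φ (m :: L) = F (posL symMv L + symMv m)) :
    (Fintype.card (Fin 4) : ℝ)⁻¹ * ∑ m : Fin 4, Φ (m :: L) =
      (F (posL symMv L + 1) + F (posL symMv L - 1) + 2 * F (posL symMv L)) / 4 := by
  simp only [hF, Fin.sum_univ_four, Fintype.card_fin]
  have e0 : symMv 0 = 1 := rfl
  have e1 : symMv 1 = -1 := rfl
  have e2 : symMv 2 = 0 := rfl
  have e3 : symMv 3 = 0 := rfl
  rw [e0, e1, e2, e3]
  simp only [add_zero, ← sub_eq_add_neg]
  push_cast
  ring

theorem sum_dri (Φ : List (Fin 4) → ℝ) (L : List (Fin 4)) (F : ℤ → ℝ)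
    (hF : ∀ m : Fin 4, Φ (m :: L) = F (posL driMv L + driMv m)) :
    (Fintype.card (Fin 4) : ℝ)⁻¹ * ∑ m : Fin 4, Φ (m :: L) =
      (2 * F (posL driMv L + 1) + F (posL driMv L - 1) + F (posL driMv L)) / 4 := by
  simp only [hF, Fin.sum_univ_four, Fintype.card_fin]
  have e0 : driMv 0 = 1 := rfl
  have e1 : driMv 1 = 1 := rfl
  have e2 : driMv 2 = 0 := rfl
  have e3 : driMv 3 = -1 := rfl
  rw [e0, e1, e2, e3]
  simp only [add_zero, ← sub_eq_add_neg]
  push_cast
  ring

theorem variance_dri (n : ℕ) :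
    mvEx (Fin 4) n (fun L => ((posL driMv L : ℝ) - n / 4) ^ 2) = 11 * n / 16 := by
  induction n with
  | zero => rw [mvEx_zero]; simp [posL]
  | succ n ih =>
    rw [mvEx_succ]
    have h : (fun L : List (Fin 4) => (Fintype.card (Fin 4) : ℝ)⁻¹ * ∑ m : Fin 4,
        ((posL driMv (m :: L) : ℝ) - ((n + 1 : ℕ) : ℝ) / 4) ^ 2) =
        (fun L => ((posL driMv L : ℝ) - n / 4) ^ 2) + fun _ => 11 / 16 := by
      ext L
      rw [sum_dri (fun L => ((posL driMv L : ℝ) - ((n + 1 : ℕ) : ℝ) / 4) ^ 2) L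
        (fun x : ℤ => ((x : ℝ) - ((n + 1 : ℕ) : ℝ) / 4) ^ 2) (fun m => rfl)]
      simp only [Pi.add_apply]
      push_cast
      ring
    rw [h, map_add, ih, (mvEx_isExp n).const]
    push_cast; ring

open Classical in
theorem cheb_dri (n : ℕ) (hn : 0 < n) :
    mvEx (Fin 4) n (fun L => if |(posL driMv L : ℝ) - n / 4| ≤ n / 40 then 0 else 1) ≤
      1100 / n := by
  have hn' : (0 : ℝ) < n := by exact_mod_cast hn
  have h1 : mvEx (Fin 4) n (fun L => if |(posL driMv L : ℝ) - n / 4| ≤ n / 40 then 0 else 1) ≤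
      mvEx (Fin 4) n ((1600 / (n : ℝ) ^ 2) • fun L => ((posL driMv L : ℝ) - n / 4) ^ 2) := by
    refine (mvEx_isExp n).mono fun L => ?_
    simp only [Pi.smul_apply, smul_eq_mul]
    split_ifs with h
    · positivity
    · push Not at h
      have h2 : ((n : ℝ) / 40) ^ 2 ≤ ((posL driMv L : ℝ) - n / 4) ^ 2 := by
        rw [← sq_abs ((posL driMv L : ℝ) - n / 4)]
        exact pow_le_pow_left₀ (by positivity) h.le 2
      calc (1 : ℝ) = 1600 / (n : ℝ) ^ 2 * ((n : ℝ) / 40) ^ 2 := by field_simp; norm_num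
        _ ≤ _ := mul_le_mul_of_nonneg_left h2 (by positivity)
  refine h1.trans ?_
  rw [map_smul, variance_dri, smul_eq_mul]
  apply le_of_eq
  field_simp
  norm_num

/-- All partial positions lie in `[-R, R]`. -/
def strip (mv : Fin 4 → ℤ) (R : ℕ) : List (Fin 4) → Prop
  | [] => True
  | m :: L => strip mv R L ∧ |posL mv (m :: L)| ≤ R

theorem strip_pos {mv : Fin 4 → ℤ} {R : ℕ} {L : List (Fin 4)} (h : strip mv R L) :
    |posL mv L| ≤ R := by
  cases L with
  | nil => simp [posL]
  | cons m L => exact h.2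

theorem strip_vis {mv : Fin 4 → ℤ} {R : ℕ} {L : List (Fin 4)} (h : strip mv R L) (p : ℤ)
    (hp : vis mv L p) : |p| ≤ R := by
  induction L with
  | nil => exact hp.elim
  | cons m L ih =>
    rcases hp with hp | ⟨_, rfl | rfl⟩
    · exact ih h.1 hp
    · exact strip_pos h.1
    · exact h.2

open Classical in
theorem strip_lower (R n : ℕ) :
    ((1 + cos (π / (2 * (R + 1)))) / 2) ^ n ≤
      mvEx (Fin 4) n (fun L => if strip symMv R L then 1 else 0) := by
  set θ : ℝ := π / (2 * (R + 1)) with hθ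
  have hR : (0 : ℝ) < R + 1 := by positivity
  have hθR : θ * (R + 1) = π / 2 := by rw [hθ]; field_simp
  have hθ0 : 0 < θ := by positivity
  -- values of cos
  have hcos : ∀ x : ℤ, |x| ≤ R → 0 ≤ cos (θ * x) := by
    intro x hx
    have hx' : |(x : ℝ)| ≤ R := by exact_mod_cast hx
    have h1 := abs_le.mp hx'
    apply cos_nonneg_of_mem_Icc
    constructor <;> nlinarith
  have hcosb : ∀ x : ℤ, |x| = R + 1 → cos (θ * x) = 0 := by
    intro x hx
    have : |(x : ℝ)| = R + 1 := by exact_mod_cast hx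
    rw [← cos_abs, abs_mul, abs_of_pos hθ0, this, hθR, cos_pi_div_two]
  set g : List (Fin 4) → ℝ := fun L => if strip symMv R L then cos (θ * posL symMv L) else 0 with hg
  have hlam : 0 ≤ (1 + cos θ) / 2 := by
    have := neg_one_le_cos θ; linarith
  have key : ∀ n, ((1 + cos θ) / 2) ^ n ≤ mvEx (Fin 4) n g := by
    intro n
    induction n with
    | zero => rw [mvEx_zero]; simp [hg, strip, posL]
    | succ n ih =>
      rw [mvEx_succ, pow_succ, mul_comm]
      have h2 : ((1 + cos θ) / 2) • g ≤ fun L => (Fintype.card (Fin 4) : ℝ)⁻¹ * ∑ m : Fin 4,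
          g (m :: L) := by
        intro L
        simp only [Pi.smul_apply, smul_eq_mul]
        by_cases hs : strip symMv R L
        · have hX := strip_pos hs
          have hval : ∀ m : Fin 4, g (m :: L) = cos (θ * ((posL symMv L + symMv m : ℤ) : ℝ)) := by
            intro m
            simp only [hg, strip, hs, true_and]
            by_cases hm : |posL symMv (m :: L)| ≤ R
            · rw [if_pos hm]; simp [posL]
            · rw [if_neg hm]
              symm
              apply hcosb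
              have h3 := symMv_abs m
              have h4 : posL symMv (m :: L) = posL symMv L + symMv m := rfl
              rw [h4] at hm
              have h5 := abs_add_le (posL symMv L) (symMv m)
              omega
          rw [sum_sym g L (fun x : ℤ => cos (θ * (x : ℝ))) hval]
          have hgL : g L = cos (θ * posL symMv L) := by simp only [hg, hs, if_true]
          rw [hgL]
          push_cast
          rw [mul_add, mul_sub, mul_one, cos_add, cos_sub]
          apply le_of_eq; ring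
        · have hgL : g L = 0 := by simp only [hg, hs, if_false]
          rw [hgL, mul_zero]
          refine mul_nonneg (by positivity) (Finset.sum_nonneg fun m _ => ?_)
          simp only [hg, strip, hs, false_and, if_false]
          exact le_rfl
      calc (1 + cos θ) / 2 * ((1 + cos θ) / 2) ^ n ≤ (1 + cos θ) / 2 * mvEx (Fin 4) n g :=
            mul_le_mul_of_nonneg_left ih hlam
        _ = mvEx (Fin 4) n (((1 + cos θ) / 2) • g) := by rw [map_smul, smul_eq_mul]
        _ ≤ _ := (mvEx_isExp n).mono h2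
  refine (key n).trans ((mvEx_isExp n).mono fun L => ?_)
  simp only [hg]
  split_ifs
  · exact cos_le_one _
  · exact le_rfl

theorem cos_expect (θ : ℝ) (n : ℕ) :
    mvEx (Fin 4) n (fun L => cos (θ * posL symMv L)) = ((1 + cos θ) / 2) ^ n := by
  induction n with
  | zero => rw [mvEx_zero]; simp [posL]
  | succ n ih =>
    rw [mvEx_succ]
    have h : (fun L : List (Fin 4) => (Fintype.card (Fin 4) : ℝ)⁻¹ * ∑ m : Fin 4,
        cos (θ * posL symMv (m :: L))) = ((1 + cos θ) / 2) • fun L => cos (θ * posL symMv L) := by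
      ext L
      rw [sum_sym (fun L => cos (θ * posL symMv L)) L (fun x : ℤ => cos (θ * x)) (fun m => rfl)]
      simp only [Pi.smul_apply, smul_eq_mul]
      push_cast
      rw [mul_add, mul_sub, mul_one, cos_add, cos_sub]
      ring
    rw [h, map_smul, ih, smul_eq_mul, pow_succ]; ring

theorem symmetry (n : ℕ) (F : ℤ → ℝ) :
    mvEx (Fin 4) n (fun L => F (posL symMv L)) = mvEx (Fin 4) n (fun L => F (-posL symMv L)) := by
  induction n generalizing F with
  | zero => rw [mvEx_zero, mvEx_zero]; simp [posL]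
  | succ n ih =>
    rw [mvEx_succ, mvEx_succ]
    have h1 : (fun L : List (Fin 4) => (Fintype.card (Fin 4) : ℝ)⁻¹ * ∑ m : Fin 4,
        F (posL symMv (m :: L))) = fun L => (fun x : ℤ => (F (x + 1) + F (x - 1) + 2 * F x) / 4)
          (posL symMv L) := by
      ext L
      exact sum_sym (fun L => F (posL symMv L)) L F (fun m => rfl)
    have h2 : (fun L : List (Fin 4) => (Fintype.card (Fin 4) : ℝ)⁻¹ * ∑ m : Fin 4,
        F (-posL symMv (m :: L))) = fun L => (fun x : ℤ => (F (x + 1) + F (x - 1) + 2 * F x) / 4)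
          (-posL symMv L) := by
      ext L
      rw [sum_sym (fun L => F (-posL symMv L)) L (fun x => F (-x)) (fun m => rfl)]
      have e1 : -(posL symMv L + 1) = -posL symMv L - 1 := by ring
      have e2 : -(posL symMv L - 1) = -posL symMv L + 1 := by ring
      simp only [e1, e2]
      ring
    rw [h1, h2]
    exact ih (fun x : ℤ => (F (x + 1) + F (x - 1) + 2 * F x) / 4)

open Classical in
/-- Anti-concentration: the walk leaves `[-ρ, ρ]` with probability at least `1/6`. -/
theorem anti (ρ n : ℕ) (hρ : 0 < ρ) (hn : 18 * ρ ^ 2 ≤ n) :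
    mvEx (Fin 4) n (fun L => if |posL symMv L| ≤ ρ then 1 else 0) ≤ 5 / 6 := by
  set θ : ℝ := π / (3 * ρ) with hθ
  have hρ' : (0 : ℝ) < ρ := by exact_mod_cast hρ
  have hρ1 : (1 : ℝ) ≤ ρ := by exact_mod_cast hρ
  have hθ0 : 0 < θ := by positivity
  have hθρ : θ * ρ = π / 3 := by rw [hθ]; field_simp
  have hθpi : |θ| ≤ π := by
    rw [abs_of_pos hθ0]
    have : θ ≤ π / 3 := by nlinarith
    linarith [pi_pos]
  have h1 : mvEx (Fin 4) n (fun L => if |posL symMv L| ≤ ρ then 1 else 0) ≤
      mvEx (Fin 4) n ((2 / 3 : ℝ) • ((fun _ => 1) + fun L => cos (θ * posL symMv L))) := by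
    refine (mvEx_isExp n).mono fun L => ?_
    simp only [Pi.smul_apply, Pi.add_apply, smul_eq_mul]
    split_ifs with h
    · have hx : |((posL symMv L : ℤ) : ℝ)| ≤ ρ := by exact_mod_cast h
      have h2 : 1 / 2 ≤ cos (θ * posL symMv L) := by
        rw [← cos_pi_div_three, ← cos_abs (θ * posL symMv L)]
        apply cos_le_cos_of_nonneg_of_le_pi (abs_nonneg _) (by linarith [pi_pos])
        rw [abs_mul, abs_of_pos hθ0, ← hθρ]
        exact mul_le_mul_of_nonneg_left hx hθ0.le
      linarith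
    · have := neg_one_le_cos (θ * posL symMv L)
      linarith
  refine h1.trans ?_
  rw [map_smul, map_add, (mvEx_isExp n).one, cos_expect, smul_eq_mul]
  have h3 : ((1 + cos θ) / 2) ^ n ≤ 1 / 4 := by
    have h4 : (1 + cos θ) / 2 ≤ exp (-(1 / (9 * (ρ : ℝ) ^ 2))) := by
      have h5 := cos_le_one_sub_mul_cos_sq hθpi
      have h6 := add_one_le_exp (-(1 / (9 * (ρ : ℝ) ^ 2)))
      have h7 : θ ^ 2 = π ^ 2 / (9 * (ρ : ℝ) ^ 2) := by rw [hθ]; field_simp; ring
      rw [h7] at h5
      have h8 : 2 / π ^ 2 * (π ^ 2 / (9 * (ρ : ℝ) ^ 2)) = 2 * (1 / (9 * (ρ : ℝ) ^ 2)) := by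
        field_simp
      rw [h8] at h5
      linarith
    have h9 : 0 ≤ (1 + cos θ) / 2 := by have := neg_one_le_cos θ; linarith
    calc ((1 + cos θ) / 2) ^ n ≤ (exp (-(1 / (9 * (ρ : ℝ) ^ 2)))) ^ n :=
          pow_le_pow_left₀ h9 h4 n
      _ = exp (-(n * (1 / (9 * (ρ : ℝ) ^ 2)))) := by rw [← exp_nat_mul]; ring_nf
      _ ≤ exp (-2) := by
          apply exp_le_exp.mpr
          have h10 : (18 : ℝ) * ρ ^ 2 ≤ n := by exact_mod_cast hn
          have h11 : (2 : ℝ) ≤ n * (1 / (9 * (ρ : ℝ) ^ 2)) := by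
            rw [mul_one_div, le_div_iff₀ (by positivity)]
            linarith
          linarith
      _ ≤ 1 / 4 := by
          rw [exp_neg, ← one_div]
          apply one_div_le_one_div_of_le (by norm_num)
          have : (2 : ℝ) ≤ exp 1 := by have := add_one_le_exp (1 : ℝ); linarith
          calc (4 : ℝ) = 2 * 2 := by norm_num
            _ ≤ exp 1 * exp 1 := mul_le_mul this this (by norm_num) (by positivity)
            _ = exp 2 := by rw [← exp_add]; norm_num
  linarith

open Classical in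
/-- The walk is to the right of `ρ` with probability at least `1/12`. -/
theorem right_far (ρ n : ℕ) (hρ : 0 < ρ) (hn : 18 * ρ ^ 2 ≤ n) :
    1 / 12 ≤ mvEx (Fin 4) n (fun L => if (ρ : ℤ) < posL symMv L then 1 else 0) := by
  have h1 := anti ρ n hρ hn
  have h2 := symmetry n (fun x => if (ρ : ℤ) < x then 1 else 0)
  have h3 : mvEx (Fin 4) n ((fun L => if |posL symMv L| ≤ ρ then 1 else 0) +
      ((fun L => if (ρ : ℤ) < posL symMv L then 1 else 0) +
        fun L => if (ρ : ℤ) < -posL symMv L then 1 else 0)) = 1 := by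
    refine Eq.trans ?_ (mvEx_isExp (M := Fin 4) n).one
    congr 1
    ext L
    simp only [Pi.add_apply]
    rcases le_or_gt |posL symMv L| (ρ : ℤ) with h | h
    · have := abs_le.mp h
      rw [if_pos h, if_neg (by omega), if_neg (by omega)]; norm_num
    · rw [if_neg (by omega)]
      rcases lt_abs.mp h with h' | h'
      · rw [if_pos h', if_neg (by omega)]; norm_num
      · rw [if_neg (by omega), if_pos h']; norm_num
  rw [map_add, map_add, ← h2] at h3
  linarith

theorem lam_lower (R K n : ℕ) (hR : 1 ≤ R) (hn : n ≤ K * (R + 1) ^ 2) :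
    exp (-(K * π ^ 2 / 8)) ≤ ((1 + cos (π / (2 * (R + 1)))) / 2) ^ n := by
  set θ : ℝ := π / (2 * (R + 1)) with hθ
  have hR' : (0 : ℝ) < R + 1 := by positivity
  have hR1 : (1 : ℝ) ≤ R := by exact_mod_cast hR
  set x : ℝ := π ^ 2 / (16 * (R + 1) ^ 2) with hx
  have hx0 : 0 < x := by positivity
  have hx2 : x ≤ 1 / 2 := by
    rw [hx, div_le_iff₀ (by positivity)]
    have h1 : π ^ 2 ≤ 16 := by nlinarith [pi_le_four, pi_pos]
    nlinarith
  have h1 : 1 - x ≤ (1 + cos θ) / 2 := by
    have h2 := one_sub_sq_div_two_le_cos (x := θ)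
    have h3 : θ ^ 2 = π ^ 2 / (4 * (R + 1) ^ 2) := by rw [hθ]; field_simp; ring
    rw [h3] at h2
    have h4 : x = π ^ 2 / (4 * (R + 1) ^ 2) / 4 := by rw [hx]; field_simp; ring
    linarith
  have h5 : exp (-(2 * x)) ≤ 1 - x := by
    have h6 : 0 < 1 - x := by linarith
    have h7 := add_one_le_exp (x / (1 - x))
    have h8 : x / (1 - x) + 1 = 1 / (1 - x) := by field_simp; ring
    rw [h8] at h7
    have h9 : x / (1 - x) ≤ 2 * x := by
      rw [div_le_iff₀ h6]; nlinarith
    have h10 : 1 / (1 - x) ≤ exp (2 * x) := h7.trans (exp_le_exp.mpr h9)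
    rw [exp_neg, inv_eq_one_div, div_le_iff₀ (exp_pos _)]
    rw [div_le_iff₀ h6] at h10
    linarith
  have hn' : (n : ℝ) ≤ K * (R + 1) ^ 2 := by exact_mod_cast hn
  calc exp (-(K * π ^ 2 / 8)) ≤ exp (n * (-(2 * x))) := by
        apply exp_le_exp.mpr
        have : (n : ℝ) * (2 * x) ≤ K * π ^ 2 / 8 := by
          calc (n : ℝ) * (2 * x) ≤ K * (R + 1) ^ 2 * (2 * x) :=
                mul_le_mul_of_nonneg_right hn' (by positivity)
            _ = K * π ^ 2 / 8 := by rw [hx]; field_simp; ring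
        linarith
    _ = (exp (-(2 * x))) ^ n := by rw [← exp_nat_mul]
    _ ≤ (1 - x) ^ n := pow_le_pow_left₀ (exp_pos _).le h5 n
    _ ≤ _ := pow_le_pow_left₀ (by linarith) h1 n

end

end Pool.Agent.Q93.RW
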