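import Pool.Agent.Q93.RW.Drift

/-!
# The finitely generated group generated by the steps
-/

namespace Pool.Agent.Q93.RW

open Real Filter Topology

set_option linter.unusedSectionVars false

noncomputable section

/-- The lamp group `S₃`. -/
abbrev S3 : Type := Equiv.Perm (Fin 3)

/-- The set of steps. -/
def Sset : Set (W S3) := {g | ∃ e : ℤ, (e = 0 ∨ e = 1 ∨ e = -1) ∧ ∃ h h' : S3, g = stepW e h h'}

/-- The group generated by the steps, a subgroup of `S₃ ≀ ℤ`. -/
abbrev GG : Type := Subgroup.closure Sset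

theorem symMv_cases (m : Fin 4) : symMv m = 0 ∨ symMv m = 1 ∨ symMv m = -1 := by
  fin_cases m <;> simp [symMv]

theorem driMv_cases (m : Fin 4) : driMv m = 0 ∨ driMv m = 1 ∨ driMv m = -1 := by
  fin_cases m <;> simp [driMv]

/-- the steps in the group -/
def stepG (mv : Fin 4 → ℤ) (hmv : ∀ m, mv m = 0 ∨ mv m = 1 ∨ mv m = -1)
    (x : Fin 4 × S3 × S3) : GG :=
  ⟨stepW (mv x.1) x.2.1 x.2.2, Subgroup.subset_closure ⟨mv x.1, hmv x.1, x.2.1, x.2.2, rfl⟩⟩

theorem range_stepG (mv : Fin 4 → ℤ) (hmv : ∀ m, mv m = 0 ∨ mv m = 1 ∨ mv m = -1)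
    (hsurj : ∀ e : ℤ, (e = 0 ∨ e = 1 ∨ e = -1) → ∃ m, mv m = e) (g : GG) :
    (∃ x, stepG mv hmv x = g) ↔ (g : W S3) ∈ Sset := by
  constructor
  · rintro ⟨x, rfl⟩
    exact ⟨mv x.1, hmv x.1, x.2.1, x.2.2, rfl⟩
  · rintro ⟨e, he, h, h', hg⟩
    obtain ⟨m, hm⟩ := hsurj e he
    refine ⟨(m, h, h'), Subtype.ext ?_⟩
    rw [hg, ← hm]; rfl

theorem symMv_surj (e : ℤ) (he : e = 0 ∨ e = 1 ∨ e = -1) : ∃ m, symMv m = e := by
  rcases he with rfl | rfl | rfl
  · exact ⟨2, rfl⟩
  · exact ⟨0, rfl⟩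
  · exact ⟨1, rfl⟩

theorem driMv_surj (e : ℤ) (he : e = 0 ∨ e = 1 ∨ e = -1) : ∃ m, driMv m = e := by
  rcases he with rfl | rfl | rfl
  · exact ⟨2, rfl⟩
  · exact ⟨0, rfl⟩
  · exact ⟨3, rfl⟩

section

variable {G : Type} [Group G] {M H : Type} [Fintype M] [Nonempty M] [Group H] [Fintype H]

open Classical in
theorem stepMeas_apply (s : M × H × H → G) (g : G) :
    stepMeas s g = ∑ x : M × H × H, if s x = g then (Fintype.card (M × H × H) : ℝ)⁻¹ else 0 := by
  unfold stepMeas
  rw [Finsupp.finsetSum_apply]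
  refine Finset.sum_congr rfl fun x _ => ?_
  rw [Finsupp.single_apply]

theorem stepMeas_nonneg (s : M × H × H → G) (g : G) : 0 ≤ stepMeas s g := by
  classical
  rw [stepMeas_apply]
  refine Finset.sum_nonneg fun x _ => ?_
  split_ifs
  · positivity
  · exact le_rfl

theorem stepMeas_pos_iff (s : M × H × H → G) (g : G) : 0 < stepMeas s g ↔ ∃ x, s x = g := by
  classical
  have hN : (0 : ℝ) < (Fintype.card (M × H × H) : ℝ)⁻¹ := by
    have : 0 < Fintype.card (M × H × H) := Fintype.card_pos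
    positivity
  constructor
  · intro h
    by_contra hno
    push Not at hno
    rw [stepMeas_apply, Finset.sum_eq_zero (fun x _ => if_neg (hno x))] at h
    exact lt_irrefl _ h
  · rintro ⟨x, hx⟩
    rw [stepMeas_apply]
    refine Finset.sum_pos' (fun y _ => by split_ifs <;> [exact hN.le; exact le_rfl])
      ⟨x, Finset.mem_univ x, ?_⟩
    rw [if_pos hx]; exact hN

theorem stepMeas_support (s : M × H × H → G) (g : G) :
    g ∈ (stepMeas s).support ↔ ∃ x, s x = g := by
  rw [Finsupp.mem_support_iff, ← stepMeas_pos_iff s g]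
  constructor
  · intro h; exact lt_of_le_of_ne (stepMeas_nonneg s g) (Ne.symm h)
  · intro h; exact h.ne'

theorem stepMeas_sum (s : M × H × H → G) : (stepMeas s).sum (fun _ r => r) = 1 := by
  have h := ex_stepMeas s (fun _ => 1)
  unfold ex at h
  simp only [mul_one] at h
  rw [h]
  simp only [Finset.sum_const, Finset.card_univ, nsmul_eq_mul, mul_one]
  have : (Fintype.card (M × H × H) : ℝ) ≠ 0 := by exact_mod_cast Fintype.card_ne_zero
  exact inv_mul_cancel₀ this

end

theorem K_lt : K S3 < Fintype.card (S3 × S3) := by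
  unfold K
  rw [← Finset.card_univ]
  apply Finset.card_lt_card
  rw [Finset.ssubset_univ_iff]
  intro h
  have this := Finset.eq_univ_iff_forall.mp h ((Equiv.swap 0 1, Equiv.swap 1 2) : S3 × S3)
  have h2 := ((@Finset.mem_filter _ _ (_) _ _).mp this).2
  revert h2
  decide

end

end Pool.Agent.Q93.RW
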