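import Pool.Agent.Q93.RW.Osc3
import Pool.Agent.Q93.RW.Group

/-!
# The class-2 extension of the lamplighter group
-/

namespace Pool.Agent.Q93.RW

open Real Filter Topology Multiplicative

set_option linter.unusedSectionVars false

noncomputable section

/-- Shift of a finitely supported function. -/
def sh (m : ℤ) (v : ℤ →₀ ZMod 2) : ℤ →₀ ZMod 2 := Finsupp.equivMapDomain (Equiv.addRight m) v

theorem sh_apply (m : ℤ) (v : ℤ →₀ ZMod 2) (i : ℤ) : sh m v i = v (i - m) := by
  unfold sh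
  rw [Finsupp.equivMapDomain_apply]
  congr 1

theorem sh_add (m : ℤ) (v u : ℤ →₀ ZMod 2) : sh m (v + u) = sh m v + sh m u := by
  ext i; simp [sh_apply]

theorem sh_neg (m : ℤ) (v : ℤ →₀ ZMod 2) : sh m (-v) = - sh m v := by
  ext i; simp [sh_apply]

theorem sh_sh (m k : ℤ) (v : ℤ →₀ ZMod 2) : sh m (sh k v) = sh (m + k) v := by
  ext i; rw [sh_apply, sh_apply, sh_apply]; congr 1; ring

theorem sh_zero (v : ℤ →₀ ZMod 2) : sh 0 v = v := by ext i; simp [sh_apply]

/-- The correlation at distance `k`. -/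
def be (k : ℕ) (v u : ℤ →₀ ZMod 2) : ZMod 2 := ∑ᶠ i : ℤ, v (i + k) * u i

theorem be_supp (k : ℕ) (v u : ℤ →₀ ZMod 2) :
    (Function.support fun i : ℤ => v (i + k) * u i).Finite := by
  refine (u.support.finite_toSet).subset ?_
  intro i hi
  rw [Function.mem_support] at hi
  rw [Finset.mem_coe, Finsupp.mem_support_iff]
  intro h; apply hi; rw [h, mul_zero]

theorem be_add_left (k : ℕ) (v v' u : ℤ →₀ ZMod 2) : be k (v + v') u = be k v u + be k v' u := by
  unfold be
  rw [← finsum_add_distrib (be_supp k v u) (be_supp k v' u)]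
  refine finsum_congr fun i => ?_
  rw [Finsupp.add_apply]; ring

theorem be_add_right (k : ℕ) (v u u' : ℤ →₀ ZMod 2) : be k v (u + u') = be k v u + be k v u' := by
  unfold be
  rw [← finsum_add_distrib (be_supp k v u) (be_supp k v u')]
  refine finsum_congr fun i => ?_
  rw [Finsupp.add_apply]; ring

theorem be_zero_left (k : ℕ) (u : ℤ →₀ ZMod 2) : be k 0 u = 0 := by
  unfold be; simp

theorem be_zero_right (k : ℕ) (u : ℤ →₀ ZMod 2) : be k u 0 = 0 := by
  unfold be; simp

theorem be_neg_left (k : ℕ) (v u : ℤ →₀ ZMod 2) : be k (-v) u = - be k v u := by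
  have h := be_add_left k v (-v) u
  rw [add_neg_cancel, be_zero_left] at h
  exact eq_neg_of_add_eq_zero_right h.symm

theorem be_sh (m : ℤ) (k : ℕ) (v u : ℤ →₀ ZMod 2) : be k (sh m v) (sh m u) = be k v u := by
  unfold be
  refine Eq.trans ?_ (finsum_comp_equiv (Equiv.subRight m) (f := fun i : ℤ => v (i + k) * u i))
  refine finsum_congr fun i => ?_
  rw [sh_apply, sh_apply]
  simp only [Equiv.subRight_apply]
  congr 2
  ring

/-- The group: a central extension of the lamplighter group. -/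
@[ext] structure GD (χ : ℕ → ZMod 2) where
  v : ℤ →₀ ZMod 2
  c : ℕ → ZMod 2
  m : ℤ

variable {χ : ℕ → ZMod 2}

instance : Mul (GD χ) := ⟨fun a b => ⟨a.v + sh a.m b.v,
  fun k => a.c k + b.c k + χ k * be k a.v (sh a.m b.v), a.m + b.m⟩⟩
instance : One (GD χ) := ⟨⟨0, fun _ => 0, 0⟩⟩
instance : Inv (GD χ) := ⟨fun a => ⟨sh (-a.m) (-a.v), fun k => -a.c k + χ k * be k a.v a.v, -a.m⟩⟩

theorem GD.mul_v (a b : GD χ) : (a * b).v = a.v + sh a.m b.v := rfl
theorem GD.mul_c (a b : GD χ) (k : ℕ) :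
    (a * b).c k = a.c k + b.c k + χ k * be k a.v (sh a.m b.v) := rfl
theorem GD.mul_m (a b : GD χ) : (a * b).m = a.m + b.m := rfl
theorem GD.one_v : (1 : GD χ).v = 0 := rfl
theorem GD.one_c (k : ℕ) : (1 : GD χ).c k = 0 := rfl
theorem GD.one_m : (1 : GD χ).m = 0 := rfl
theorem GD.inv_v (a : GD χ) : (a⁻¹).v = sh (-a.m) (-a.v) := rfl
theorem GD.inv_c (a : GD χ) (k : ℕ) : (a⁻¹).c k = -a.c k + χ k * be k a.v a.v := rfl
theorem GD.inv_m (a : GD χ) : (a⁻¹).m = -a.m := rfl

instance : Group (GD χ) where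
  mul_assoc a b c := by
    ext1
    · simp only [GD.mul_v, GD.mul_m, sh_add, sh_sh, add_assoc]
    · ext k
      simp only [GD.mul_c, GD.mul_v, GD.mul_m, sh_add, sh_sh, be_add_left, be_add_right]
      have h : be k (sh a.m b.v) (sh (a.m + b.m) c.v) = be k b.v (sh b.m c.v) := by
        rw [← sh_sh, be_sh]
      rw [h]; ring
    · simp only [GD.mul_m, add_assoc]
  one_mul a := by
    ext1
    · simp only [GD.mul_v, GD.one_v, GD.one_m, sh_zero, zero_add]
    · ext k
      simp only [GD.mul_c, GD.one_v, GD.one_m, GD.one_c, sh_zero, be_zero_left, mul_zero, zero_add,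
        add_zero]
    · simp only [GD.mul_m, GD.one_m, zero_add]
  mul_one a := by
    have h0 : sh a.m (0 : ℤ →₀ ZMod 2) = 0 := by ext i; simp [sh_apply]
    ext1
    · simp only [GD.mul_v, GD.one_v, h0, add_zero]
    · ext k
      simp only [GD.mul_c, GD.one_v, GD.one_c, h0, be_zero_right, mul_zero, add_zero]
    · simp only [GD.mul_m, GD.one_m, add_zero]
  inv_mul_cancel a := by
    ext1
    · simp only [GD.mul_v, GD.inv_v, GD.inv_m, GD.one_v, sh_neg, neg_add_cancel]
    · ext k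
      simp only [GD.mul_c, GD.inv_v, GD.inv_c, GD.inv_m, GD.one_c, be_sh, be_neg_left]
      ring
    · simp only [GD.mul_m, GD.inv_m, GD.one_m, neg_add_cancel]

/-- The projection to the lamplighter group. -/
def prj (χ : ℕ → ZMod 2) : GD χ →* W H2 where
  toFun a := ⟨fun p => ofAdd (a.v p), a.m⟩
  map_one' := rfl
  map_mul' a b := by
    ext1
    · ext1 p
      show ofAdd ((a.v + sh a.m b.v) p) = ofAdd (a.v p) * ofAdd (b.v (p - a.m))
      rw [Finsupp.add_apply, sh_apply, ofAdd_add]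
    · rfl

theorem prj_lamp (a : GD χ) (p : ℤ) : (prj χ a).lamp p = ofAdd (a.v p) := rfl
theorem prj_pos (a : GD χ) : (prj χ a).pos = a.m := rfl

/-- a lamp at the origin -/
def lampE (χ : ℕ → ZMod 2) (h : H2) : GD χ := ⟨Finsupp.single 0 (toAdd h), fun _ => 0, 0⟩

/-- translation -/
def tE (χ : ℕ → ZMod 2) (e : ℤ) : GD χ := ⟨0, fun _ => 0, e⟩

/-- the steps -/
def stepD (χ : ℕ → ZMod 2) (e : ℤ) (h h' : H2) : GD χ :=
  if e = 0 then 1 else lampE χ h * tE χ e * lampE χ h'

theorem prj_stepD (e : ℤ) (h h' : H2) : prj χ (stepD χ e h h') = stepW e h h' := by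
  unfold stepD stepW
  split_ifs with he
  · exact map_one _
  · rw [map_mul, map_mul]
    ext1
    · ext1 p
      simp only [mul_lamp, mul_pos, prj_lamp, prj_pos, lampE, tE, Finsupp.coe_zero, Pi.zero_apply,
        ofAdd_zero, mul_one, zero_add, Pi.mul_apply, Pi.mulSingle_apply, Finsupp.single_apply]
      by_cases h1 : p = 0
      · subst h1
        have h2 : ¬ ((0 : ℤ) = 0 - e) := by omega
        have h3 : ¬ ((0 : ℤ) = e) := fun h => he h.symm
        simp [h3, he]
      · by_cases h2 : p = e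
        · subst h2
          have h3 : ¬ ((0 : ℤ) = p) := fun h => he h.symm
          simp [h3, he]
        · have h3 : ¬ ((0 : ℤ) = p - e) := by omega
          have h4 : ¬ ((0 : ℤ) = p) := fun h => h1 h.symm
          simp [h3, h4, h1, h2]
    · simp [mul_pos, prj_pos, lampE, tE]

theorem lampE_inv (h0 : χ 0 = 0) (h : H2) : (lampE χ h)⁻¹ = lampE χ h⁻¹ := by
  rw [inv_eq_iff_mul_eq_one]
  ext1
  · simp only [GD.mul_v, lampE, sh_zero, GD.one_v]
    rw [← Finsupp.single_add, ← toAdd_mul, mul_inv_cancel]; simp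
  · ext k
    simp only [GD.mul_c, lampE, sh_zero, GD.one_c, zero_add]
    by_cases hk : k = 0
    · subst hk; rw [h0, zero_mul]
    · have : be k (Finsupp.single 0 (toAdd h)) (Finsupp.single 0 (toAdd h⁻¹)) = 0 := by
        unfold be
        refine (finsum_congr fun i => ?_).trans finsum_zero
        rw [Finsupp.single_apply, Finsupp.single_apply]
        by_cases hi : (0 : ℤ) = i
        · rw [if_neg (by omega), zero_mul]
        · rw [if_neg hi, mul_zero]
      rw [this, mul_zero]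
  · simp only [GD.mul_m, lampE, GD.one_m, add_zero]

theorem tE_inv (e : ℤ) : (tE χ e)⁻¹ = tE χ (-e) := by
  rw [inv_eq_iff_mul_eq_one]
  have h0 : ∀ m, sh m (0 : ℤ →₀ ZMod 2) = 0 := by intro m; ext i; simp [sh_apply]
  ext1
  · simp only [GD.mul_v, tE, h0, GD.one_v, add_zero]
  · ext k
    simp only [GD.mul_c, tE, h0, GD.one_c, be_zero_left, mul_zero, add_zero]
  · simp only [GD.mul_m, tE, GD.one_m, add_neg_cancel]

theorem stepD_inv (h0 : χ 0 = 0) (e : ℤ) (h h' : H2) :
    (stepD χ e h h')⁻¹ = stepD χ (-e) h'⁻¹ h⁻¹ := by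
  unfold stepD
  by_cases he : e = 0
  · rw [if_pos he, if_pos (by omega), inv_one]
  · rw [if_neg he, if_neg (by omega), mul_inv_rev, mul_inv_rev, lampE_inv h0, lampE_inv h0, tE_inv,
      mul_assoc]

theorem bit_zero (V U : ℤ → ZMod 2) : bit V U 0 = 0 := by
  unfold bit
  rw [sub_eq_zero]
  refine finsum_congr fun i => ?_
  simp only [Nat.cast_zero, add_zero]
  ring

theorem pn_update_zero (χ : ℕ → ZMod 2) (n : ℕ) : pn (Function.update χ 0 0) n = pn χ n := by
  have h : ∀ a0 a1 a2 a3 a4, Qc (Function.update χ 0 0) a0 a1 a2 a3 a4 ↔ Qc χ a0 a1 a2 a3 a4 := by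
    intro a0 a1 a2 a3 a4
    unfold Qc
    refine forall_congr' fun k => ?_
    by_cases hk : k = 0
    · subst hk; rw [bit_zero]; simp
    · rw [Function.update_of_ne hk]
  unfold pn
  congr 1; funext a0; congr 1; funext a1; congr 1; funext a2; congr 1; funext a3; congr 1
  funext a4
  by_cases hq : Qc χ a0 a1 a2 a3 a4
  · rw [if_pos hq, if_pos ((h a0 a1 a2 a3 a4).mpr hq)]
  · rw [if_neg hq, if_neg (fun h' => hq ((h a0 a1 a2 a3 a4).mp h'))]

/-- The generating set of the group, inside the big group. -/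
def SD (χ : ℕ → ZMod 2) : Set (GD χ) :=
  {g | ∃ e : ℤ, (e = 1 ∨ e = -1) ∧ ∃ h h' : H2, g = stepD χ e h h'}

/-- The finitely generated group. -/
abbrev GX (χ : ℕ → ZMod 2) : Type := Subgroup.closure (SD χ)

theorem stepD_mem (e : ℤ) (he : e = 0 ∨ e = 1 ∨ e = -1) (h h' : H2) :
    stepD χ e h h' ∈ Subgroup.closure (SD χ) := by
  rcases he with rfl | he
  · unfold stepD; rw [if_pos rfl]; exact Subgroup.one_mem _
  · exact Subgroup.subset_closure ⟨e, he, h, h', rfl⟩

/-- the steps -/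
def sX (χ : ℕ → ZMod 2) (x : Fin 4 × H2 × H2) : GX χ :=
  ⟨stepD χ (symMv x.1) x.2.1 x.2.2, stepD_mem _ (symMv_cases x.1) _ _⟩

/-- the nontrivial steps -/
def sI (χ : ℕ → ZMod 2) (x : Bool × H2 × H2) : GX χ :=
  ⟨stepD χ (if x.1 then 1 else -1) x.2.1 x.2.2,
    stepD_mem _ (by cases x.1 <;> simp) _ _⟩

theorem sI_injective : Function.Injective (sI χ) := by
  intro x y hxy
  have h1 : stepD χ (if x.1 then 1 else -1) x.2.1 x.2.2 =
      stepD χ (if y.1 then 1 else -1) y.2.1 y.2.2 := congrArg Subtype.val hxy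
  have h2 := congrArg (prj χ) h1
  rw [prj_stepD, prj_stepD] at h2
  have hx : (if x.1 then (1 : ℤ) else -1) ≠ 0 := by split_ifs <;> norm_num
  have hy : (if y.1 then (1 : ℤ) else -1) ≠ 0 := by split_ifs <;> norm_num
  unfold stepW at h2
  rw [if_neg hx, if_neg hy] at h2
  have h3 : (if x.1 then (1 : ℤ) else -1) = (if y.1 then (1 : ℤ) else -1) :=
    congrArg (fun a : W H2 => a.pos) h2
  have h4 : x.1 = y.1 := by
    rcases x with ⟨a, x2⟩
    rcases y with ⟨b, y2⟩
    simp only at h3 ⊢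
    cases a <;> cases b <;> simp at h3 ⊢
  have h5 := congrArg (fun a : W H2 => a.lamp) h2
  simp only at h5
  rw [h3] at h5
  set e : ℤ := (if y.1 then (1 : ℤ) else -1) with he
  have h6 := congrFun h5 0
  have h7 := congrFun h5 e
  have he0 : (0 : ℤ) ≠ e := fun h => hy h.symm
  simp only [Pi.mul_apply, Pi.mulSingle_eq_same, Pi.mulSingle_eq_of_ne he0, mul_one] at h6
  simp only [Pi.mul_apply, Pi.mulSingle_eq_same, Pi.mulSingle_eq_of_ne he0.symm, one_mul] at h7
  exact Prod.ext h4 (Prod.ext h6 h7)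

open Classical in
/-- The finite symmetric generating set. -/
def SX (χ : ℕ → ZMod 2) : Finset (GX χ) := Finset.univ.image (sI χ)

theorem mem_SX (g : GX χ) : g ∈ SX χ ↔ (g : GD χ) ∈ SD χ := by
  classical
  unfold SX
  rw [Finset.mem_image]
  constructor
  · rintro ⟨x, _, rfl⟩
    refine ⟨if x.1 then 1 else -1, by cases x.1 <;> simp, x.2.1, x.2.2, rfl⟩
  · rintro ⟨e, he, h, h', hg⟩
    rcases he with rfl | rfl
    · exact ⟨(true, h, h'), Finset.mem_univ _, Subtype.ext hg.symm⟩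
    · exact ⟨(false, h, h'), Finset.mem_univ _, Subtype.ext hg.symm⟩

theorem SX_closure : Subgroup.closure (SX χ : Set (GX χ)) = ⊤ := by
  have h1 : (SX χ : Set (GX χ)) = (Subtype.val) ⁻¹' SD χ := by
    ext g
    rw [Finset.mem_coe, mem_SX]
    rfl
  rw [h1]
  exact Subgroup.closure_closure_coe_preimage

theorem SX_symm (h0 : χ 0 = 0) (g : GX χ) (hg : g ∈ SX χ) : g⁻¹ ∈ SX χ := by
  rw [mem_SX] at hg ⊢
  obtain ⟨e, he, h, h', hg⟩ := hg
  refine ⟨-e, by omega, h'⁻¹, h⁻¹, ?_⟩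
  rw [← stepD_inv h0, ← hg]; rfl

/-- The step distribution of the lazy random walk: `1` with probability `1/2`, uniform on `S`
otherwise. -/
def lazyMeas {G : Type} [Group G] (S : Finset G) : G →₀ ℝ :=
  Finsupp.single 1 (1 / 2) + ∑ g ∈ S, Finsupp.single g (1 / (2 * (S.card : ℝ)))

theorem lazy_eq : lazyMeas (SX χ) = stepMeas (sX χ) := by
  classical
  have hcardH : Fintype.card H2 = 2 := ZMod.card 2
  have hcard : (SX χ).card = 8 := by
    unfold SX
    rw [Finset.card_image_of_injective _ sI_injective, Finset.card_univ]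
    simp [Fintype.card_prod, hcardH]
  have hN : (Fintype.card (Fin 4 × H2 × H2) : ℝ)⁻¹ = 1 / 16 := by
    simp only [Fintype.card_prod, hcardH, Fintype.card_fin]; norm_num
  unfold lazyMeas stepMeas
  rw [hcard, hN, Fintype.sum_prod_type, Fin.sum_univ_four]
  have e2 : ∑ y : H2 × H2, Finsupp.single (sX χ (2, y)) (1 / 16 : ℝ) =
      Finsupp.single (1 : GX χ) (1 / 4) := by
    have : ∀ y ∈ (Finset.univ : Finset (H2 × H2)), Finsupp.single (sX χ (2, y)) (1 / 16 : ℝ) =
        Finsupp.single (1 : GX χ) (1 / 16) := by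
      intro y _
      have : sX χ (2, y) = 1 := Subtype.ext (by
        show stepD χ (symMv 2) y.1 y.2 = 1
        have h2 : symMv 2 = 0 := rfl
        unfold stepD
        exact if_pos h2)
      rw [this]
    rw [Finset.sum_congr rfl this, Finset.sum_const, Finset.card_univ, Fintype.card_prod, hcardH,
      Finsupp.smul_single]
    norm_num
  have e3 : ∑ y : H2 × H2, Finsupp.single (sX χ (3, y)) (1 / 16 : ℝ) =
      Finsupp.single (1 : GX χ) (1 / 4) := by
    have : ∀ y ∈ (Finset.univ : Finset (H2 × H2)), Finsupp.single (sX χ (3, y)) (1 / 16 : ℝ) =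
        Finsupp.single (1 : GX χ) (1 / 16) := by
      intro y _
      have : sX χ (3, y) = 1 := Subtype.ext (by
        show stepD χ (symMv 3) y.1 y.2 = 1
        have h2 : symMv 3 = 0 := rfl
        unfold stepD
        exact if_pos h2)
      rw [this]
    rw [Finset.sum_congr rfl this, Finset.sum_const, Finset.card_univ, Fintype.card_prod, hcardH,
      Finsupp.smul_single]
    norm_num
  have e01 : ∑ g ∈ SX χ, Finsupp.single g (1 / (2 * ((8 : ℕ) : ℝ))) =
      ∑ y : H2 × H2, Finsupp.single (sX χ (0, y)) (1 / 16 : ℝ) +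
      ∑ y : H2 × H2, Finsupp.single (sX χ (1, y)) (1 / 16 : ℝ) := by
    unfold SX
    rw [Finset.sum_image (fun x _ y _ h => sI_injective h), Fintype.sum_prod_type,
      Fintype.sum_bool]
    norm_num
    rfl
  rw [e2, e3, e01]
  have e4 : Finsupp.single (1 : GX χ) (1 / 2 : ℝ) = Finsupp.single 1 (1 / 4) +
      Finsupp.single 1 (1 / 4) := by
    rw [← Finsupp.single_add]; norm_num
  rw [e4]
  abel

/-- The word `[[x₃, x₀], x₂ [x₄, x₁] x₂⁻¹]`. -/
def wordX : FreeGroup (Fin 5) :=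
  cm (cm (FreeGroup.of 3) (FreeGroup.of 0))
    (FreeGroup.of 2 * cm (FreeGroup.of 4) (FreeGroup.of 1) * (FreeGroup.of 2)⁻¹)

theorem lift_wordX {G : Type} [Group G] (g : Fin 5 → G) :
    FreeGroup.lift g wordX = cm (cm (g 3) (g 0)) (g 2 * cm (g 4) (g 1) * (g 2)⁻¹) := by
  simp only [wordX, map_cm, map_mul, map_inv, FreeGroup.lift_apply_of]

theorem GD_comm (A B : GD χ) (hA : A.m = 0) (hB : B.m = 0) :
    cm A B = 1 ↔ ∀ k, χ k * (be k A.v B.v - be k B.v A.v) = 0 := by
  have h0 : cm A B = 1 ↔ A * B = B * A := by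
    unfold cm
    rw [mul_inv_eq_one, mul_inv_eq_iff_eq_mul]
  rw [h0]
  constructor
  · intro h k
    have h1 := congrArg (fun a : GD χ => a.c k) h
    simp only [GD.mul_c, hA, hB, sh_zero] at h1
    linear_combination h1
  · intro h
    ext1
    · simp only [GD.mul_v, hA, hB, sh_zero]; abel
    · ext k
      simp only [GD.mul_c, hA, hB, sh_zero]
      linear_combination h k
    · simp only [GD.mul_m, hA, hB]

theorem hQX (g : Fin 5 → GX χ) : FreeGroup.lift g wordX = 1 ↔
    Qc χ (((prj χ).comp (Subgroup.closure (SD χ)).subtype) (g 0))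
      (((prj χ).comp (Subgroup.closure (SD χ)).subtype) (g 1))
      (((prj χ).comp (Subgroup.closure (SD χ)).subtype) (g 2))
      (((prj χ).comp (Subgroup.closure (SD χ)).subtype) (g 3))
      (((prj χ).comp (Subgroup.closure (SD χ)).subtype) (g 4)) := by
  rw [lift_wordX]
  have h1 : cm (cm (g 3) (g 0)) (g 2 * cm (g 4) (g 1) * (g 2)⁻¹) = 1 ↔
      cm (cm (g 3 : GD χ) (g 0)) ((g 2 : GD χ) * cm (g 4 : GD χ) (g 1) * (g 2 : GD χ)⁻¹) = 1 := by
    rw [← map_eq_one_iff (Subgroup.closure (SD χ)).subtype Subtype.val_injective]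
    simp only [map_cm, map_mul, map_inv, Subgroup.subtype_apply]
  rw [h1]
  have hm1 : (cm (g 3 : GD χ) (g 0)).m = 0 := by
    rw [← prj_pos, map_cm]; exact comm_pos _ _
  have hm2 : ((g 2 : GD χ) * cm (g 4 : GD χ) (g 1) * (g 2 : GD χ)⁻¹).m = 0 := by
    rw [← prj_pos, map_mul, map_mul, map_cm, map_inv]; exact conj_pos _ _ (comm_pos _ _)
  rw [GD_comm _ _ hm1 hm2]
  unfold Qc
  refine forall_congr' fun k => ?_
  have hV : ∀ i, Vf (prj χ (g 3 : GD χ)) (prj χ (g 0 : GD χ)) i =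
      (cm (g 3 : GD χ) (g 0)).v i := by
    intro i
    unfold Vf
    rw [← map_cm, prj_lamp]; rfl
  have hU : ∀ i, Uf (prj χ (g 2 : GD χ)) (prj χ (g 4 : GD χ)) (prj χ (g 1 : GD χ)) i =
      ((g 2 : GD χ) * cm (g 4 : GD χ) (g 1) * (g 2 : GD χ)⁻¹).v i := by
    intro i
    unfold Uf
    rw [← map_cm, ← map_inv, ← map_mul, ← map_mul, prj_lamp]; rfl
  have hb : bit (Vf (prj χ (g 3 : GD χ)) (prj χ (g 0 : GD χ)))
      (Uf (prj χ (g 2 : GD χ)) (prj χ (g 4 : GD χ)) (prj χ (g 1 : GD χ))) k =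
      be k (cm (g 3 : GD χ) (g 0)).v ((g 2 : GD χ) * cm (g 4 : GD χ) (g 1) * (g 2 : GD χ)⁻¹).v -
      be k ((g 2 : GD χ) * cm (g 4 : GD χ) (g 1) * (g 2 : GD χ)⁻¹).v (cm (g 3 : GD χ) (g 0)).v := by
    unfold bit be
    simp only [hV, hU]
  show _ ↔ χ k * bit (Vf (prj χ (g 3 : GD χ)) (prj χ (g 0 : GD χ)))
      (Uf (prj χ (g 2 : GD χ)) (prj χ (g 4 : GD χ)) (prj χ (g 1 : GD χ))) k = 0
  rw [hb]

theorem law_lazy (n : ℕ) : lawProb (convPow (lazyMeas (SX χ)) n) wordX = pn χ n := by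
  rw [lazy_eq]
  exact lawProb_T5 symMv ((prj χ).comp (Subgroup.closure (SD χ)).subtype) (sX χ)
    (fun x => prj_stepD _ _ _) wordX (Qc χ) hQX n

end

end Pool.Agent.Q93.RW
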