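import Pool.Agent.Q93.RW.Drift

/-!
# More estimates for the symmetric lazy walk
-/

namespace Pool.Agent.Q93.RW

open Real

set_option linter.unusedSectionVars false

noncomputable section

variable {H : Type} [Group H] [Fintype H]
variable {M : Type} [Fintype M] [Nonempty M]

theorem mvEx_congr_length (n : ℕ) (Φ Φ' : List M → ℝ)
    (h : ∀ L : List M, L.length = n → Φ L = Φ' L) : mvEx M n Φ = mvEx M n Φ' := by
  induction n generalizing Φ Φ' with
  | zero => exact h [] rfl
  | succ n ih =>
    rw [mvEx_succ, mvEx_succ]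
    refine ih _ _ fun L hL => ?_
    congr 1
    refine Finset.sum_congr rfl fun m _ => h _ ?_
    simp [hL]

theorem mvEx_map (e : M ≃ M) (n : ℕ) (Φ : List M → ℝ) :
    mvEx M n (fun L => Φ (L.map e)) = mvEx M n Φ := by
  induction n generalizing Φ with
  | zero => rfl
  | succ n ih =>
    rw [mvEx_succ, mvEx_succ]
    refine Eq.trans ?_ (ih (fun L => (Fintype.card M : ℝ)⁻¹ * ∑ m : M, Φ (m :: L)))
    congr 1
    ext L
    congr 1
    simp only [List.map_cons]
    exact Equiv.sum_comp e (fun m => Φ (m :: L.map e))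

theorem pos_bound (mv : M → ℤ) (hmv : ∀ m, |mv m| ≤ 1) (L : List M) :
    |posL mv L| ≤ L.length := by
  induction L with
  | nil => simp [posL]
  | cons m L ih =>
    simp only [posL, List.length_cons]
    have := abs_add_le (posL mv L) (mv m)
    have := hmv m
    push_cast
    omega

theorem vis_bound (mv : M → ℤ) (hmv : ∀ m, |mv m| ≤ 1) (L : List M) (p : ℤ)
    (hp : vis mv L p) : |p| ≤ L.length := by
  induction L with
  | nil => exact hp.elim
  | cons m L ih =>
    rcases hp with hp | ⟨_, rfl | rfl⟩
    · have := ih hp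
      simp only [List.length_cons]; push_cast; omega
    · have := pos_bound mv hmv L
      simp only [List.length_cons]; push_cast; omega
    · exact pos_bound mv hmv (m :: L)

/-- Functions which agree on the good configurations have the same expectation. -/
theorem T_congr (mv : M → ℤ) (hmv : ∀ m, |mv m| ≤ 1) (n : ℕ) (F F' : W H → ℝ)
    (h : ∀ a, Good n a → F a = F' a) : T mv n F = T mv n F' := by
  rw [T_apply, T_apply]
  refine mvEx_congr_length n _ _ fun L hL => ?_
  refine lampEx_support mv L _ _ fun f hf => ?_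
  refine h _ ⟨fun p hp => hf p fun hv => ?_, ?_⟩
  · have := vis_bound mv hmv L p hv
    omega
  · have := pos_bound mv hmv L
    rw [hL] at this
    exact this

/-- The reflection of the moves. -/
def neg : Fin 4 ≃ Fin 4 := Equiv.swap 0 1

theorem symMv_neg (m : Fin 4) : symMv (neg m) = - symMv m := by
  fin_cases m <;> simp [symMv, neg, Equiv.swap_apply_def]

theorem posL_neg (L : List (Fin 4)) : posL symMv (L.map neg) = - posL symMv L := by
  induction L with
  | nil => simp [posL]
  | cons m L ih => simp only [List.map_cons, posL, ih, symMv_neg]; ring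

theorem strip_neg (R : ℕ) (L : List (Fin 4)) : strip symMv R (L.map neg) ↔ strip symMv R L := by
  induction L with
  | nil => simp [strip]
  | cons m L ih =>
    simp only [List.map_cons, strip, ih]
    have : posL symMv (neg m :: L.map neg) = - posL symMv (m :: L) := posL_neg (m :: L)
    rw [this, abs_neg]

/-- Some partial position is `≥ r`. -/
def reach (mv : Fin 4 → ℤ) (r : ℕ) : List (Fin 4) → Prop
  | [] => r = 0
  | m :: L => reach mv r L ∨ (r : ℤ) ≤ posL mv (m :: L)

theorem reach_vis {r : ℕ} (hr : 1 ≤ r) {L : List (Fin 4)} (h : reach symMv r L) (q : ℤ)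
    (hq0 : 0 ≤ q) (hq : q ≤ r) : vis symMv L q := by
  induction L with
  | nil => simp only [reach] at h; omega
  | cons m L ih =>
    rcases h with h | h
    · exact Or.inl (ih h)
    · exact vis_between symMv symMv_abs (m :: L) (by omega) q (Or.inl ⟨hq0, by omega⟩)

theorem strip_of_not_reach {R r : ℕ} (hr : 1 ≤ r) {L : List (Fin 4)}
    (h1 : ¬ reach symMv r L) (h2 : ¬ reach symMv r (L.map neg)) (h : strip symMv R L) :
    strip symMv (r - 1) L := by
  induction L with
  | nil => trivial
  | cons m L ih =>
    simp only [reach, List.map_cons, not_or, not_le] at h1 h2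
    refine ⟨ih h1.1 h2.1 h.1, ?_⟩
    have e : posL symMv (neg m :: L.map neg) = - posL symMv (m :: L) := posL_neg (m :: L)
    rw [e] at h2
    have := h1.2
    have := h2.2
    rw [abs_le]
    omega

open Classical in
theorem strip_upper (ρ n : ℕ) :
    mvEx (Fin 4) n (fun L => if strip symMv ρ L then 1 else 0) ≤
      2 * exp (-(n / (16 * ((ρ : ℝ) + 1) ^ 2))) := by
  set θ : ℝ := π / (4 * (ρ + 1)) with hθ
  have hR : (0 : ℝ) < ρ + 1 := by positivity
  have hθR : θ * (ρ + 1) = π / 4 := by rw [hθ]; field_simp
  have hθ0 : 0 < θ := by positivity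
  have hθpi : |θ| ≤ π := by
    rw [abs_of_pos hθ0]
    have : (1 : ℝ) ≤ ρ + 1 := by linarith [(Nat.cast_nonneg ρ : (0 : ℝ) ≤ ρ)]
    have : θ ≤ π / 4 := by nlinarith
    linarith [pi_pos]
  set g : List (Fin 4) → ℝ := fun L => if strip symMv ρ L then cos (θ * posL symMv L) else 0 with hg
  have hcos : ∀ x : ℤ, |x| ≤ ρ + 1 → 1 / 2 ≤ cos (θ * x) := by
    intro x hx
    have hx' : |(x : ℝ)| ≤ ρ + 1 := by exact_mod_cast hx
    rw [← cos_pi_div_three, ← cos_abs (θ * x)]
    apply cos_le_cos_of_nonneg_of_le_pi (abs_nonneg _) (by linarith [pi_pos])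
    rw [abs_mul, abs_of_pos hθ0]
    calc θ * |(x : ℝ)| ≤ θ * (ρ + 1) := mul_le_mul_of_nonneg_left hx' hθ0.le
      _ = π / 4 := hθR
      _ ≤ π / 3 := by linarith [pi_pos]
  have hlam : 0 ≤ (1 + cos θ) / 2 := by
    have := neg_one_le_cos θ; linarith
  have key : ∀ n, mvEx (Fin 4) n g ≤ ((1 + cos θ) / 2) ^ n := by
    intro n
    induction n with
    | zero => rw [mvEx_zero]; simp [hg, strip, posL]
    | succ n ih =>
      rw [mvEx_succ, pow_succ, mul_comm]
      have h2 : (fun L => (Fintype.card (Fin 4) : ℝ)⁻¹ * ∑ m : Fin 4, g (m :: L)) ≤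
          ((1 + cos θ) / 2) • g := by
        intro L
        simp only [Pi.smul_apply, smul_eq_mul]
        by_cases hs : strip symMv ρ L
        · have hX := strip_pos hs
          have hval : ∀ m : Fin 4, g (m :: L) ≤ cos (θ * ((posL symMv L + symMv m : ℤ) : ℝ)) := by
            intro m
            simp only [hg, strip, hs, true_and]
            by_cases hm : |posL symMv (m :: L)| ≤ ρ
            · rw [if_pos hm]; simp [posL]
            · rw [if_neg hm]
              have h3 := symMv_abs m
              have h5 := abs_add_le (posL symMv L) (symMv m)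
              have := hcos (posL symMv L + symMv m) (by omega)
              linarith
          have hsum : (Fintype.card (Fin 4) : ℝ)⁻¹ * ∑ m : Fin 4, g (m :: L) ≤
              (Fintype.card (Fin 4) : ℝ)⁻¹ * ∑ m : Fin 4,
                (fun L' : List (Fin 4) => cos (θ * posL symMv L')) (m :: L) := by
            refine mul_le_mul_of_nonneg_left (Finset.sum_le_sum fun m _ => ?_) (by positivity)
            exact hval m
          refine hsum.trans ?_
          rw [sum_sym (fun L' : List (Fin 4) => cos (θ * posL symMv L')) L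
            (fun x : ℤ => cos (θ * (x : ℝ))) (fun m => rfl)]
          have hgL : g L = cos (θ * posL symMv L) := by simp only [hg, hs, if_true]
          rw [hgL]
          push_cast
          rw [mul_add, mul_sub, mul_one, cos_add, cos_sub]
          apply le_of_eq; ring
        · have hgL : g L = 0 := by simp only [hg, hs, if_false]
          rw [hgL, mul_zero]
          apply le_of_eq
          have : ∀ m ∈ (Finset.univ : Finset (Fin 4)), g (m :: L) = 0 := by
            intro m _
            simp only [hg, strip, hs, false_and, if_false]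
          rw [Finset.sum_eq_zero this, mul_zero]
      calc _ ≤ mvEx (Fin 4) n (((1 + cos θ) / 2) • g) := (mvEx_isExp n).mono h2
        _ = (1 + cos θ) / 2 * mvEx (Fin 4) n g := by rw [map_smul, smul_eq_mul]
        _ ≤ _ := mul_le_mul_of_nonneg_left ih hlam
  have h1 : mvEx (Fin 4) n (fun L => if strip symMv ρ L then 1 else 0) ≤
      mvEx (Fin 4) n ((2 : ℝ) • g) := by
    refine (mvEx_isExp n).mono fun L => ?_
    simp only [Pi.smul_apply, smul_eq_mul, hg]
    split_ifs with h
    · have := hcos (posL symMv L) (by have := strip_pos h; omega)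
      linarith
    · simp
  refine h1.trans ?_
  rw [map_smul, smul_eq_mul]
  refine mul_le_mul_of_nonneg_left ((key n).trans ?_) (by norm_num)
  have h4 : (1 + cos θ) / 2 ≤ exp (-(1 / (16 * ((ρ : ℝ) + 1) ^ 2))) := by
    have h5 := cos_le_one_sub_mul_cos_sq hθpi
    have h6 := add_one_le_exp (-(1 / (16 * ((ρ : ℝ) + 1) ^ 2)))
    have h7 : θ ^ 2 = π ^ 2 / (16 * ((ρ : ℝ) + 1) ^ 2) := by rw [hθ]; field_simp; ring
    rw [h7] at h5
    have h8 : 2 / π ^ 2 * (π ^ 2 / (16 * ((ρ : ℝ) + 1) ^ 2)) =
        2 * (1 / (16 * ((ρ : ℝ) + 1) ^ 2)) := by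
      field_simp
    rw [h8] at h5
    linarith
  calc ((1 + cos θ) / 2) ^ n ≤ (exp (-(1 / (16 * ((ρ : ℝ) + 1) ^ 2)))) ^ n :=
        pow_le_pow_left₀ hlam h4 n
    _ = exp (-(n / (16 * ((ρ : ℝ) + 1) ^ 2))) := by rw [← exp_nat_mul]; ring_nf

open Classical in
/-- The walk stays in the strip and reaches `r`. -/
theorem strip_reach (R r n : ℕ) (hr : 1 ≤ r) :
    (mvEx (Fin 4) n (fun L => if strip symMv R L then 1 else 0) -
      mvEx (Fin 4) n (fun L => if strip symMv (r - 1) L then 1 else 0)) / 2 ≤
      mvEx (Fin 4) n (fun L => if strip symMv R L ∧ reach symMv r L then 1 else 0) := by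
  have h1 : mvEx (Fin 4) n (fun L => if strip symMv R L then 1 else 0) ≤
      mvEx (Fin 4) n ((fun L => if strip symMv R L ∧ reach symMv r L then 1 else 0) +
        ((fun L => if strip symMv R (L.map neg) ∧ reach symMv r (L.map neg) then 1 else 0) +
        fun L => if strip symMv (r - 1) L then 1 else 0)) := by
    refine (mvEx_isExp n).mono fun L => ?_
    simp only [Pi.add_apply, strip_neg]
    by_cases hs : strip symMv R L
    · by_cases h1 : reach symMv r L
      · simp only [hs, h1, true_and, if_true]
        have : (0 : ℝ) ≤ (if reach symMv r (L.map neg) then 1 else 0) := by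
          split_ifs <;> norm_num
        have : (0 : ℝ) ≤ (if strip symMv (r - 1) L then 1 else 0) := by split_ifs <;> norm_num
        linarith
      · by_cases h2 : reach symMv r (L.map neg)
        · simp only [hs, h1, h2, true_and, if_true, if_false]
          have : (0 : ℝ) ≤ (if strip symMv (r - 1) L then 1 else 0) := by split_ifs <;> norm_num
          linarith
        · have h3 := strip_of_not_reach hr h1 h2 hs
          simp [hs, h1, h2, h3]
    · rw [if_neg hs]
      have h1 : (0 : ℝ) ≤ (if strip symMv R L ∧ reach symMv r L then 1 else 0) := by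
        split_ifs <;> norm_num
      have h2 : (0 : ℝ) ≤ (if strip symMv R L ∧ reach symMv r (L.map neg) then 1 else 0) := by
        split_ifs <;> norm_num
      have h3 : (0 : ℝ) ≤ (if strip symMv (r - 1) L then 1 else 0) := by split_ifs <;> norm_num
      linarith
  rw [map_add, map_add,
    mvEx_map neg n (fun L => if strip symMv R L ∧ reach symMv r L then (1 : ℝ) else 0)] at h1
  linarith

open Classical in
/-- The walk stays in the strip and ends at a positive position. -/
theorem strip_positive (R n : ℕ) :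
    (1 / 8) * mvEx (Fin 4) n (fun L => if strip symMv R L then 1 else 0) ≤
      mvEx (Fin 4) (n + 1) (fun L => if strip symMv (R + 1) L ∧ 0 < posL symMv L then 1 else 0) := by
  have hmonoR : ∀ L, strip symMv R L → strip symMv (R + 1) L := by
    intro L
    induction L with
    | nil => exact fun _ => trivial
    | cons m L ih =>
      rintro ⟨h1, h2⟩
      refine ⟨ih h1, ?_⟩
      push_cast; omega
  rw [mvEx_succ]
  have h1 : mvEx (Fin 4) n ((1 / 4 : ℝ) • fun L => if strip symMv R L ∧ 0 ≤ posL symMv L then
      (1 : ℝ) else 0) ≤ mvEx (Fin 4) n (fun L => (Fintype.card (Fin 4) : ℝ)⁻¹ * ∑ m : Fin 4,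
        if strip symMv (R + 1) (m :: L) ∧ 0 < posL symMv (m :: L) then 1 else 0) := by
    refine (mvEx_isExp n).mono fun L => ?_
    simp only [Pi.smul_apply, smul_eq_mul]
    have hcard : (Fintype.card (Fin 4) : ℝ)⁻¹ = 1 / 4 := by simp
    rw [hcard]
    refine mul_le_mul_of_nonneg_left ?_ (by norm_num)
    split_ifs with h
    · have h2 := Finset.single_le_sum (s := (Finset.univ : Finset (Fin 4)))
        (f := fun m => if strip symMv (R + 1) (m :: L) ∧ 0 < posL symMv (m :: L) then
          (1 : ℝ) else 0) (fun m _ => by split_ifs <;> norm_num) (Finset.mem_univ 0)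
      refine le_trans ?_ h2
      have e : posL symMv ((0 : Fin 4) :: L) = posL symMv L + 1 := rfl
      have h3 := strip_pos h.1
      have h4 := abs_le.mp h3
      rw [if_pos]
      refine ⟨⟨hmonoR L h.1, ?_⟩, ?_⟩
      · rw [e, abs_le]; push_cast; omega
      · rw [e]; omega
    · refine Finset.sum_nonneg fun m _ => by split_ifs <;> norm_num
  refine le_trans ?_ h1
  rw [map_smul, smul_eq_mul]
  have h2 : mvEx (Fin 4) n (fun L => if strip symMv R L then 1 else 0) ≤
      mvEx (Fin 4) n ((fun L => if strip symMv R L ∧ 0 ≤ posL symMv L then (1 : ℝ) else 0) +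
        fun L => if strip symMv R (L.map neg) ∧ 0 ≤ posL symMv (L.map neg) then (1 : ℝ) else 0) := by
    refine (mvEx_isExp n).mono fun L => ?_
    simp only [Pi.add_apply, strip_neg, posL_neg]
    by_cases hs : strip symMv R L
    · rcases le_total 0 (posL symMv L) with h | h
      · simp only [hs, h, true_and, if_true]
        have : (0 : ℝ) ≤ (if 0 ≤ -posL symMv L then 1 else 0) := by split_ifs <;> norm_num
        linarith
      · have h' : 0 ≤ -posL symMv L := by omega
        simp only [hs, h', true_and, if_true]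
        have : (0 : ℝ) ≤ (if 0 ≤ posL symMv L then 1 else 0) := by split_ifs <;> norm_num
        linarith
    · simp [hs]
  rw [map_add,
    mvEx_map neg n (fun L => if strip symMv R L ∧ 0 ≤ posL symMv L then (1 : ℝ) else 0)] at h2
  linarith

open Classical in
theorem strip_negative (R n : ℕ) :
    mvEx (Fin 4) n (fun L => if strip symMv R L ∧ posL symMv L < 0 then 1 else 0) =
      mvEx (Fin 4) n (fun L => if strip symMv R L ∧ 0 < posL symMv L then 1 else 0) := by
  rw [← mvEx_map neg n (fun L => if strip symMv R L ∧ 0 < posL symMv L then (1 : ℝ) else 0)]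
  congr 1
  ext L
  simp only [strip_neg, posL_neg, Left.neg_pos_iff]

theorem variance_sym (n : ℕ) :
    mvEx (Fin 4) n (fun L => (posL symMv L : ℝ) ^ 2) = n / 2 := by
  induction n with
  | zero => rw [mvEx_zero]; simp [posL]
  | succ n ih =>
    rw [mvEx_succ]
    have h : (fun L : List (Fin 4) => (Fintype.card (Fin 4) : ℝ)⁻¹ * ∑ m : Fin 4,
        (posL symMv (m :: L) : ℝ) ^ 2) =
        (fun L => (posL symMv L : ℝ) ^ 2) + fun _ => 1 / 2 := by
      ext L
      rw [sum_sym (fun L => (posL symMv L : ℝ) ^ 2) L (fun x : ℤ => (x : ℝ) ^ 2) (fun m => rfl)]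
      simp only [Pi.add_apply]
      push_cast
      ring
    rw [h, map_add, ih, (mvEx_isExp n).const]
    push_cast; ring

open Classical in
theorem cheb_sym (n C : ℕ) (hC : 0 < C) :
    mvEx (Fin 4) n (fun L => if (C : ℤ) < posL symMv L then 1 else 0) ≤ n / (2 * (C : ℝ) ^ 2) := by
  have hC' : (0 : ℝ) < C := by exact_mod_cast hC
  have h1 : mvEx (Fin 4) n (fun L => if (C : ℤ) < posL symMv L then 1 else 0) ≤
      mvEx (Fin 4) n ((1 / (C : ℝ) ^ 2) • fun L => (posL symMv L : ℝ) ^ 2) := by
    refine (mvEx_isExp n).mono fun L => ?_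
    simp only [Pi.smul_apply, smul_eq_mul]
    split_ifs with h
    · have h2 : (C : ℝ) ≤ posL symMv L := by exact_mod_cast h.le
      have h3 : (C : ℝ) ^ 2 ≤ (posL symMv L : ℝ) ^ 2 := pow_le_pow_left₀ hC'.le h2 2
      calc (1 : ℝ) = 1 / (C : ℝ) ^ 2 * (C : ℝ) ^ 2 := by field_simp
        _ ≤ _ := mul_le_mul_of_nonneg_left h3 (by positivity)
    · positivity
  refine h1.trans ?_
  rw [map_smul, variance_sym, smul_eq_mul]
  apply le_of_eq
  field_simp

open Classical in
/-- Pigeonhole: some window of length `r` is hit with probability at least `1/15360`. -/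
theorem window (r : ℕ) (hr : 1 ≤ r) : ∃ j : ℕ, 1 / 15360 ≤
    mvEx (Fin 4) (28800 * r ^ 2) (fun L => if ((5 * (8 * r - 1) : ℕ) : ℤ) < posL symMv L ∧
      (j * r : ℤ) < posL symMv L ∧ posL symMv L ≤ ((j + 1) * r : ℤ) then 1 else 0) := by
  set n := 28800 * r ^ 2 with hn
  have h1 := right_far (5 * (8 * r - 1)) n (by omega) (by
    rw [hn]
    have : 8 * r - 1 ≤ 8 * r := by omega
    calc 18 * (5 * (8 * r - 1)) ^ 2 ≤ 18 * (5 * (8 * r)) ^ 2 := by gcongr
      _ = 28800 * r ^ 2 := by ring)
  have h2 := cheb_sym n (640 * r) (by omega)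
  have h3 : (n : ℝ) / (2 * ((640 * r : ℕ) : ℝ) ^ 2) ≤ 1 / 24 := by
    rw [hn]
    have : (0 : ℝ) < r := by exact_mod_cast hr
    push_cast
    rw [div_le_div_iff₀ (by positivity) (by norm_num)]
    nlinarith [sq_nonneg (r : ℝ)]
  by_contra hno
  push Not at hno
  set A : ℕ → List (Fin 4) → ℝ := fun j L => if ((5 * (8 * r - 1) : ℕ) : ℤ) < posL symMv L ∧
      (j * r : ℤ) < posL symMv L ∧ posL symMv L ≤ ((j + 1) * r : ℤ) then 1 else 0 with hA
  have hA0 : ∀ j L, 0 ≤ A j L := fun j L => by simp only [hA]; split_ifs <;> norm_num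
  have h4 : mvEx (Fin 4) n (fun L => if ((5 * (8 * r - 1) : ℕ) : ℤ) < posL symMv L then 1 else 0) ≤
      mvEx (Fin 4) n ((fun L => if ((640 * r : ℕ) : ℤ) < posL symMv L then 1 else 0) +
        ∑ j ∈ Finset.range 640, A j) := by
    refine (mvEx_isExp n).mono fun L => ?_
    simp only [Pi.add_apply, Finset.sum_apply]
    by_cases h5 : ((5 * (8 * r - 1) : ℕ) : ℤ) < posL symMv L
    · rw [if_pos h5]
      by_cases h6 : ((640 * r : ℕ) : ℤ) < posL symMv L
      · rw [if_pos h6]
        have := Finset.sum_nonneg (s := Finset.range 640) fun j _ => hA0 j L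
        linarith
      · rw [if_neg h6, zero_add]
        -- find the window
        have hpos : 0 < posL symMv L := by omega
        obtain ⟨x, hx⟩ : ∃ x : ℕ, posL symMv L = x + 1 := ⟨(posL symMv L - 1).toNat, by omega⟩
        have hdm := Nat.div_add_mod x r
        have hml := Nat.mod_lt x (by omega : r > 0)
        set j := x / r with hj
        have hjlt : j < 640 := by
          rw [hj, Nat.div_lt_iff_lt_mul (by omega)]
          push_cast at h6
          have : (x : ℤ) + 1 ≤ 640 * r := by omega
          have : x + 1 ≤ 640 * r := by exact_mod_cast this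
          omega
        refine le_trans ?_ (Finset.single_le_sum (f := fun j => A j L) (fun j _ => hA0 j L)
          (Finset.mem_range.mpr hjlt))
        simp only [hA]
        rw [if_pos]
        refine ⟨h5, ?_, ?_⟩
        · rw [hx]
          have : (x : ℤ) = r * j + (x % r : ℕ) := by exact_mod_cast hdm.symm
          have e : (j : ℤ) * r = r * j := mul_comm _ _
          rw [e]; omega
        · rw [hx]
          have h7 : (x : ℤ) = r * j + (x % r : ℕ) := by exact_mod_cast hdm.symm
          have e : ((j : ℤ) + 1) * r = r * j + r := by ring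
          rw [e]
          have h8 : ((x % r : ℕ) : ℤ) < r := by exact_mod_cast hml
          omega
    · rw [if_neg h5]
      have h7 := Finset.sum_nonneg (s := Finset.range 640) fun j _ => hA0 j L
      have h8 : (0 : ℝ) ≤ (if ((640 * r : ℕ) : ℤ) < posL symMv L then 1 else 0) := by
        split_ifs <;> norm_num
      linarith
  rw [map_add, map_sum] at h4
  have h9 : ∑ j ∈ Finset.range 640, mvEx (Fin 4) n (A j) < ∑ _j ∈ Finset.range 640,
      (1 / 15360 : ℝ) := by
    refine Finset.sum_lt_sum_of_nonempty ⟨0, by simp⟩ fun j _ => hno j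
  rw [Finset.sum_const, Finset.card_range, nsmul_eq_mul] at h9
  have h10 : mvEx (Fin 4) n (fun L => if ((640 * r : ℕ) : ℤ) < posL symMv L then 1 else 0) ≤
      1 / 24 := h2.trans h3
  have h11 : (1 : ℝ) / 12 ≤ mvEx (Fin 4) n (fun L =>
      if ((5 * (8 * r - 1) : ℕ) : ℤ) < posL symMv L then 1 else 0) := h1
  norm_num at h9
  linarith

end

end Pool.Agent.Q93.RW
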