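import Pool.Agent.Q93.RW.Osc1

/-!
# The law in the class-2 extension of the lamplighter group: locality, monotonicity, the gap
-/

namespace Pool.Agent.Q93.RW

open Real Multiplicative

set_option linter.unusedSectionVars false

noncomputable section

abbrev H2 : Type := Multiplicative (ZMod 2)

def Vf (a3 a0 : W H2) (i : ℤ) : ZMod 2 := toAdd ((cm a3 a0).lamp i)

def Uf (a2 a4 a1 : W H2) (i : ℤ) : ZMod 2 := toAdd ((a2 * cm a4 a1 * a2⁻¹).lamp i)

def bit (V U : ℤ → ZMod 2) (k : ℕ) : ZMod 2 :=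
  (∑ᶠ i : ℤ, V (i + k) * U i) - ∑ᶠ i : ℤ, U (i + k) * V i

/-- The word vanishes in the group with cocycle `χ`. -/
def Qc (χ : ℕ → ZMod 2) (a0 a1 a2 a3 a4 : W H2) : Prop :=
  ∀ k, χ k * bit (Vf a3 a0) (Uf a2 a4 a1) k = 0

open Classical in
def pn (χ : ℕ → ZMod 2) (n : ℕ) : ℝ :=
  T symMv n (fun a0 => T symMv n (fun a1 => T symMv n (fun a2 => T symMv n (fun a3 =>
        T symMv n (fun a4 => if Qc χ a0 a1 a2 a3 a4 then (1 : ℝ) else 0)))))

theorem comm_supp {H : Type} [Group H] [Fintype H] {R : ℕ} {x y : W H} (hx : Good R x) (hy : Good R y) (q : ℤ)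
    (hq : (2 * R : ℤ) < |q|) : (cm x y).lamp q = 1 := by
  rw [comm_lamp]
  have e1 := abs_le.mp hx.2
  have e2 := abs_le.mp hy.2
  have hcase : ∀ r : ℤ, |r| ≤ R → (R : ℤ) < |q - r| := by
    intro r hr
    have := abs_sub_abs_le_abs_sub q r
    omega
  rw [hx.1 q (by omega), hy.1 (q - x.pos) (hcase _ hx.2), hx.1 (q - y.pos) (hcase _ hy.2),
    hy.1 q (by omega)]
  simp

theorem Vf_supp {R : ℕ} {x y : W H2} (hx : Good R x) (hy : Good R y) (q : ℤ)
    (hq : (2 * R : ℤ) < |q|) : Vf x y q = 0 := by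
  unfold Vf; rw [comm_supp hx hy q hq]; rfl

theorem Uf_eq (a2 a4 a1 : W H2) (i : ℤ) : Uf a2 a4 a1 i = Vf a4 a1 (i - a2.pos) := by
  unfold Uf Vf
  rw [conj_lamp _ _ (comm_pos _ _)]
  simp only [toAdd_mul, toAdd_inv]
  ring

theorem bit_eq_zero_of {V U : ℤ → ZMod 2} {k : ℕ} (h1 : ∀ i, V (i + k) * U i = 0)
    (h2 : ∀ i, U (i + k) * V i = 0) : bit V U k = 0 := by
  unfold bit
  simp only [h1, h2, finsum_zero, sub_zero]

/-- Locality. -/
theorem pn_local (χ χ' : ℕ → ZMod 2) (n : ℕ) (h : ∀ k, k ≤ 5 * n → χ k = χ' k) :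
    pn χ n = pn χ' n := by
  classical
  unfold pn
  refine T_congr symMv symMv_abs n _ _ fun a0 h0 => ?_
  refine T_congr symMv symMv_abs n _ _ fun a1 h1 => ?_
  refine T_congr symMv symMv_abs n _ _ fun a2 h2 => ?_
  refine T_congr symMv symMv_abs n _ _ fun a3 h3 => ?_
  refine T_congr symMv symMv_abs n _ _ fun a4 h4 => ?_
  have hiff : Qc χ a0 a1 a2 a3 a4 ↔ Qc χ' a0 a1 a2 a3 a4 := by
    unfold Qc
    refine forall_congr' fun k => ?_
    by_cases hk : k ≤ 5 * n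
    · rw [h k hk]
    · have hz : bit (Vf a3 a0) (Uf a2 a4 a1) k = 0 := by
        have e2 := abs_le.mp h2.2
        apply bit_eq_zero_of
        · intro i
          by_cases hi : (3 * n : ℤ) < |i|
          · have : (2 * n : ℤ) < |i - a2.pos| := by
              have := abs_sub_abs_le_abs_sub i a2.pos
              have := h2.2
              omega
            rw [Uf_eq, Vf_supp h4 h1 _ this, mul_zero]
          · have e3 := abs_le.mp (not_lt.mp hi)
            have : (2 * n : ℤ) < |i + k| := by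
              rw [lt_abs]; left; omega
            rw [Vf_supp h3 h0 _ this, zero_mul]
        · intro i
          by_cases hi : (2 * n : ℤ) < |i|
          · rw [Vf_supp h3 h0 _ hi, mul_zero]
          · have e3 := abs_le.mp (not_lt.mp hi)
            have : (2 * n : ℤ) < |i + k - a2.pos| := by
              rw [lt_abs]; left; omega
            rw [Uf_eq, Vf_supp h4 h1 _ this, zero_mul]
      rw [hz, mul_zero, mul_zero]
  simp only [hiff]

theorem Qc_mono {χ : ℕ → ZMod 2} {d : ℕ} (hd : χ d = 0) {a0 a1 a2 a3 a4 : W H2}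
    (h : Qc (Function.update χ d 1) a0 a1 a2 a3 a4) : Qc χ a0 a1 a2 a3 a4 := by
  intro k
  by_cases hk : k = d
  · subst hk; rw [hd, zero_mul]
  · have := h k
    rwa [Function.update_of_ne hk] at this

/-- the indicator of `0` -/
def dl (j : ℤ) : ZMod 2 := if j = 0 then 1 else 0

theorem toAdd_single (p i : ℤ) (u : H2) :
    toAdd ((Pi.mulSingle p u : ℤ → H2) i) = dl (i - p) * toAdd u := by
  unfold dl
  by_cases h : i = p
  · subst h; simp
  · rw [Pi.mulSingle_eq_of_ne h, if_neg (by omega)]; simp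

theorem Vf_toggle (f : ℤ → H2) (m : ℤ) (a : W H2) (p : ℤ) (u : H2) (i : ℤ) :
    Vf ⟨f * Pi.mulSingle p u, m⟩ a i = Vf ⟨f, m⟩ a i +
      toAdd u * (dl (i - p) - dl (i - a.pos - p)) := by
  unfold Vf
  rw [comm_lamp, comm_lamp]
  simp only [Pi.mul_apply, toAdd_mul, toAdd_inv, toAdd_single]
  ring

theorem good_toggle {R : ℕ} {f : ℤ → H2} {m : ℤ} (h : Good R (⟨f, m⟩ : W H2)) {p : ℤ}
    (hp : |p| ≤ R) (u : H2) : Good R (⟨f * Pi.mulSingle p u, m⟩ : W H2) := by
  refine ⟨fun q hq => ?_, h.2⟩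
  have h1 : f q = 1 := h.1 q hq
  have h2 : q ≠ p := by rintro rfl; omega
  show f q * (Pi.mulSingle p u : ℤ → H2) q = 1
  rw [h1, Pi.mulSingle_eq_of_ne h2, mul_one]

/-- The pointwise claim: some toggle makes the `d`-th bit nonzero. -/
theorem toggles {R r d : ℕ} (hr : r ≤ R) {χ : ℕ → ZMod 2} (hχ : ∀ k, R < k → χ k = 0)
    {a0 a1 a2 : W H2} (h0 : Good R a0) (h0' : 0 < a0.pos) (h1 : Good R a1) (h1' : a1.pos < 0)
    (h2 : (5 * R : ℤ) < a2.pos) (h2' : (d : ℤ) - r < a2.pos) (h2'' : a2.pos ≤ d)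
    {f f' : ℤ → H2} {m m' : ℤ} (hf : Good R (⟨f, m⟩ : W H2)) (hf' : Good R (⟨f', m'⟩ : W H2)) :
    ∃ u u' : H2, Qc χ a0 a1 a2 ⟨f * Pi.mulSingle 0 u, m⟩ ⟨f' * Pi.mulSingle (d - a2.pos) u', m'⟩ ∧
      ¬ Qc (Function.update χ d 1) a0 a1 a2 ⟨f * Pi.mulSingle 0 u, m⟩
        ⟨f' * Pi.mulSingle (d - a2.pos) u', m'⟩ := by
  set s : ℤ := d - a2.pos with hs
  have hs0 : 0 ≤ s := by omega
  have hsR : |s| ≤ R := by rw [abs_of_nonneg hs0]; omega
  have hg : ∀ u, Good R (⟨f * Pi.mulSingle 0 u, m⟩ : W H2) := fun u =>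
    good_toggle hf (by simp) u
  have hg' : ∀ u, Good R (⟨f' * Pi.mulSingle s u, m'⟩ : W H2) := fun u =>
    good_toggle hf' hsR u
  -- the first sums vanish
  have hfirst : ∀ (u u' : H2) (k : ℕ) (i : ℤ), Vf ⟨f * Pi.mulSingle 0 u, m⟩ a0 (i + k) *
      Uf a2 ⟨f' * Pi.mulSingle s u', m'⟩ a1 i = 0 := by
    intro u u' k i
    by_cases hi : (2 * R : ℤ) < |i + k|
    · rw [Vf_supp (hg u) h0 _ hi, zero_mul]
    · have e1 := abs_le.mp (not_lt.mp hi)
      have : (2 * R : ℤ) < |i - a2.pos| := by rw [lt_abs]; right; omega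
      rw [Uf_eq, Vf_supp (hg' u') h1 _ this, mul_zero]
  have hQ : ∀ u u' : H2, Qc χ a0 a1 a2 ⟨f * Pi.mulSingle 0 u, m⟩
      ⟨f' * Pi.mulSingle s u', m'⟩ := by
    intro u u' k
    by_cases hk : R < k
    · rw [hχ k hk, zero_mul]
    · rw [bit_eq_zero_of (hfirst u u' k), mul_zero]
      intro i
      by_cases hi : (2 * R : ℤ) < |i|
      · rw [Vf_supp (hg u) h0 _ hi, mul_zero]
      · have e1 := abs_le.mp (not_lt.mp hi)
        have : (2 * R : ℤ) < |i + k - a2.pos| := by rw [lt_abs]; right; omega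
        rw [Uf_eq, Vf_supp (hg' u') h1 _ this, zero_mul]
  by_contra hno
  push Not at hno
  -- all bits vanish
  have hB : ∀ u u' : H2, ∑ i ∈ Finset.Icc (-(2 * R : ℤ)) (2 * R),
      Vf ⟨f' * Pi.mulSingle s u', m'⟩ a1 (i + s) * Vf ⟨f * Pi.mulSingle 0 u, m⟩ a0 i = 0 := by
    intro u u'
    have h := hno u u' (hQ u u') d
    rw [Function.update_self, one_mul] at h
    unfold bit at h
    have e1 : ∑ᶠ i : ℤ, Vf ⟨f * Pi.mulSingle 0 u, m⟩ a0 (i + d) *
        Uf a2 ⟨f' * Pi.mulSingle s u', m'⟩ a1 i = 0 := by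
      simp only [hfirst, finsum_zero]
    rw [e1, zero_sub, neg_eq_zero] at h
    rw [finsum_eq_sum_of_support_subset (s := Finset.Icc (-(2 * R : ℤ)) (2 * R))] at h
    · rw [← h]
      refine Finset.sum_congr rfl fun i _ => ?_
      rw [Uf_eq]
      congr 2
      rw [hs]; ring
    · intro i hi
      rw [Function.mem_support] at hi
      rw [Finset.mem_coe, Finset.mem_Icc]
      by_contra hc
      apply hi
      have : (2 * R : ℤ) < |i| := by
        rw [lt_abs]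
        by_contra hcc
        push Not at hcc
        apply hc
        omega
      rw [Vf_supp (hg u) h0 _ this, mul_zero]
  -- the mixed difference
  have h00 := hB 1 1
  have h10 := hB (ofAdd 1) 1
  have h01 := hB 1 (ofAdd 1)
  have h11 := hB (ofAdd 1) (ofAdd 1)
  simp only [Vf_toggle, toAdd_one, toAdd_ofAdd, zero_mul, one_mul, add_zero] at h00 h10 h01 h11
  have key : ∑ i ∈ Finset.Icc (-(2 * R : ℤ)) (2 * R),
      (dl (i + s - s) - dl (i + s - a1.pos - s)) * (dl (i - 0) - dl (i - a0.pos - 0)) = 0 := by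
    have e : ∀ i : ℤ, (dl (i + s - s) - dl (i + s - a1.pos - s)) *
        (dl (i - 0) - dl (i - a0.pos - 0)) =
        (Vf ⟨f', m'⟩ a1 (i + s) + (dl (i + s - s) - dl (i + s - a1.pos - s))) *
          (Vf ⟨f, m⟩ a0 i + (dl (i - 0) - dl (i - a0.pos - 0))) -
        Vf ⟨f', m'⟩ a1 (i + s) * (Vf ⟨f, m⟩ a0 i + (dl (i - 0) - dl (i - a0.pos - 0))) -
        (Vf ⟨f', m'⟩ a1 (i + s) + (dl (i + s - s) - dl (i + s - a1.pos - s))) *
          Vf ⟨f, m⟩ a0 i + Vf ⟨f', m'⟩ a1 (i + s) * Vf ⟨f, m⟩ a0 i := by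
      intro i; ring
    simp only [e, Finset.sum_add_distrib, Finset.sum_sub_distrib, h00, h10, h01, h11]
    simp
  have key2 : ∑ i ∈ Finset.Icc (-(2 * R : ℤ)) (2 * R),
      (dl (i + s - s) - dl (i + s - a1.pos - s)) * (dl (i - 0) - dl (i - a0.pos - 0)) = 1 := by
    rw [Finset.sum_eq_single 0]
    · have e1 : dl (0 + s - s) = 1 := by unfold dl; rw [if_pos (by ring)]
      have e2 : dl (0 + s - a1.pos - s) = 0 := by unfold dl; rw [if_neg (by omega)]
      have e3 : dl ((0 : ℤ) - 0) = 1 := by unfold dl; rw [if_pos (by ring)]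
      have e4 : dl (0 - a0.pos - 0) = 0 := by unfold dl; rw [if_neg (by omega)]
      rw [e1, e2, e3, e4]; ring
    · intro i _ hi
      by_cases hi1 : i = a0.pos
      · have e1 : dl (i + s - s) = 0 := by unfold dl; rw [if_neg (by omega)]
        have e2 : dl (i + s - a1.pos - s) = 0 := by unfold dl; rw [if_neg (by omega)]
        rw [e1, e2]; ring
      · have e3 : dl (i - 0) = 0 := by unfold dl; rw [if_neg (by omega)]
        have e4 : dl (i - a0.pos - 0) = 0 := by unfold dl; rw [if_neg (by omega)]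
        rw [e3, e4]; ring
    · intro h
      exfalso; apply h
      rw [Finset.mem_Icc]; omega
  rw [key] at key2
  exact absurd key2 (by decide)

theorem lampEx_ge_of_support {H : Type} [Group H] [Fintype H] {M : Type} [Fintype M]
    [Nonempty M] (mv : M → ℤ)
    (L : List M) (F : (ℤ → H) → ℝ) (c : ℝ)
    (h : ∀ f : ℤ → H, (∀ p, ¬ vis mv L p → f p = 1) → c ≤ F f) : c ≤ lampEx mv L F := by
  classical
  have e : lampEx mv L F = lampEx mv L (fun f => max (F f) c) := by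
    refine lampEx_support mv L _ _ fun f hf => ?_
    rw [max_eq_left (h f hf)]
  rw [e]
  exact (lampEx_isExp mv L).const_le fun f => le_max_right _ _

theorem lampEx_avg {H : Type} [Group H] [Fintype H] {M : Type} [Fintype M]
    [Nonempty M] (mv : M → ℤ)
    (L : List M) (p : ℤ) (hp : vis mv L p) (F : (ℤ → H) → ℝ) :
    lampEx mv L F = lampEx mv L (fun f : ℤ → H => (Fintype.card H : ℝ)⁻¹ *
      ∑ u : H, F (f * Pi.mulSingle p u)) := by
  have e : (fun f : ℤ → H => (Fintype.card H : ℝ)⁻¹ * ∑ u : H, F (f * Pi.mulSingle p u)) =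
      (Fintype.card H : ℝ)⁻¹ • ∑ u : H, (fun f : ℤ → H => F (f * Pi.mulSingle p u)) := by
    ext f; simp
  rw [e, map_smul, map_sum]
  have e2 : ∀ u ∈ (Finset.univ : Finset H), lampEx mv L (fun f => F (f * Pi.mulSingle p u)) =
      lampEx mv L F := fun u _ => lampEx_invariant mv L p hp u F
  rw [Finset.sum_congr rfl e2, Finset.sum_const, Finset.card_univ, nsmul_eq_mul, smul_eq_mul]
  have : (Fintype.card H : ℝ) ≠ 0 := by exact_mod_cast Fintype.card_ne_zero
  rw [inv_mul_cancel_left₀ this]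

open Classical in
/-- The difference of indicators. -/
def Ps (χ : ℕ → ZMod 2) (d : ℕ) (a0 a1 a2 a3 a4 : W H2) : ℝ :=
  (if Qc χ a0 a1 a2 a3 a4 then (1 : ℝ) else 0) -
    (if Qc (Function.update χ d 1) a0 a1 a2 a3 a4 then (1 : ℝ) else 0)

theorem Ps_nonneg {χ : ℕ → ZMod 2} {d : ℕ} (hd : χ d = 0) (a0 a1 a2 a3 a4 : W H2) :
    0 ≤ Ps χ d a0 a1 a2 a3 a4 := by
  classical
  unfold Ps
  by_cases h : Qc (Function.update χ d 1) a0 a1 a2 a3 a4
  · rw [if_pos h, if_pos (Qc_mono hd h)]; simp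
  · rw [if_neg h]; split_ifs <;> norm_num

theorem good_of_strip {L : List (Fin 4)} {R : ℕ} (h : strip symMv R L) {f : ℤ → H2}
    (hf : ∀ p, ¬ vis symMv L p → f p = 1) : Good R (⟨f, posL symMv L⟩ : W H2) := by
  refine ⟨fun p hp => hf p fun hv => ?_, strip_pos h⟩
  have := strip_vis h p hv
  omega

theorem one_le_double {U : Type} [Fintype U] (g : U → U → ℝ) (h0 : ∀ u u', 0 ≤ g u u')
    (u u' : U) (h : g u u' = 1) : 1 ≤ ∑ u : U, ∑ u' : U, g u u' := by
  calc (1 : ℝ) = g u u' := h.symm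
    _ ≤ ∑ u' : U, g u u' := Finset.single_le_sum (f := fun u' => g u u')
        (fun u' _ => h0 _ _) (Finset.mem_univ u')
    _ ≤ _ := Finset.single_le_sum (f := fun u => ∑ u' : U, g u u')
        (fun u _ => Finset.sum_nonneg fun u' _ => h0 _ _) (Finset.mem_univ u)

theorem Ps_eq_one {χ : ℕ → ZMod 2} {d : ℕ} {a0 a1 a2 a3 a4 : W H2}
    (h1 : Qc χ a0 a1 a2 a3 a4) (h2 : ¬ Qc (Function.update χ d 1) a0 a1 a2 a3 a4) :
    Ps χ d a0 a1 a2 a3 a4 = 1 := by
  unfold Ps; rw [if_pos h1, if_neg h2]; ring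

/-- The toggled difference. -/
def P2 (χ : ℕ → ZMod 2) (d : ℕ) (a0 a1 a2 : W H2) (f f' : ℤ → H2) (m m' q : ℤ) (u u' : H2) : ℝ :=
  Ps χ d a0 a1 a2 ⟨f * Pi.mulSingle 0 u, m⟩ ⟨f' * Pi.mulSingle q u', m'⟩

theorem P2_nonneg {χ : ℕ → ZMod 2} {d : ℕ} (hd : χ d = 0) (a0 a1 a2 : W H2) (f f' : ℤ → H2)
    (m m' q : ℤ) (u u' : H2) : 0 ≤ P2 χ d a0 a1 a2 f f' m m' q u u' :=
  Ps_nonneg hd _ _ _ _ _

/-- The double sum over the toggles. -/
def dsum (χ : ℕ → ZMod 2) (d : ℕ) (a0 a1 a2 : W H2) (f f' : ℤ → H2) (m m' q : ℤ) : ℝ :=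
  ∑ u : H2, ∑ u' : H2, P2 χ d a0 a1 a2 f f' m m' q u u'

theorem one_le_dsum {R r d : ℕ} (hr : r ≤ R) {χ : ℕ → ZMod 2} (hχ : ∀ k, R < k → χ k = 0)
    (hd : χ d = 0) {a0 a1 a2 : W H2} (h0 : Good R a0) (h0' : 0 < a0.pos) (h1 : Good R a1)
    (h1' : a1.pos < 0) (h2 : (5 * R : ℤ) < a2.pos) (h2' : (d : ℤ) - r < a2.pos)
    (h2'' : a2.pos ≤ d) {f f' : ℤ → H2} {m m' : ℤ} (hf : Good R (⟨f, m⟩ : W H2))
    (hf' : Good R (⟨f', m'⟩ : W H2)) : 1 ≤ dsum χ d a0 a1 a2 f f' m m' (d - a2.pos) := by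
  obtain ⟨u, u', hq1, hq2⟩ := toggles hr hχ h0 h0' h1 h1' h2 h2' h2'' hf hf'
  have h : P2 χ d a0 a1 a2 f f' m m' (d - a2.pos) u u' = 1 := Ps_eq_one hq1 hq2
  exact one_le_double _ (fun _ _ => P2_nonneg hd _ _ _ _ _ _ _ _ _ _) u u' h

set_option maxHeartbeats 1000000 in
open Classical in
theorem inner_lower {R r d n : ℕ} (hr1 : 1 ≤ r) (hr : r ≤ R) {χ : ℕ → ZMod 2}
    (hχ : ∀ k, R < k → χ k = 0) (hd : χ d = 0)
    {a0 a1 a2 : W H2} (h0 : Good R a0) (h0' : 0 < a0.pos) (h1 : Good R a1) (h1' : a1.pos < 0)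
    (h2 : (5 * R : ℤ) < a2.pos) (h2' : (d : ℤ) - r < a2.pos) (h2'' : a2.pos ≤ d) :
    (mvEx (Fin 4) n (fun L => if strip symMv R L ∧ reach symMv r L then 1 else 0)) *
      ((mvEx (Fin 4) n (fun L => if strip symMv R L ∧ reach symMv r L then 1 else 0)) * (1 / 4)) ≤
    T symMv n (fun a3 => T symMv n (fun a4 => Ps χ d a0 a1 a2 a3 a4)) := by
  set e : ℝ := mvEx (Fin 4) n (fun L => if strip symMv R L ∧ reach symMv r L then 1 else 0) with he
  have he0 : 0 ≤ e := (mvEx_isExp n).nonneg _ fun L => by split_ifs <;> norm_num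
  have hcardH : (Fintype.card H2 : ℝ)⁻¹ = 1 / 2 := by
    have : Fintype.card H2 = 2 := ZMod.card 2
    rw [this]; norm_num
  rw [T_apply]
  have step1 : mvEx (Fin 4) n ((e * (1 / 4)) • fun L => if strip symMv R L ∧ reach symMv r L then
      (1 : ℝ) else 0) ≤ mvEx (Fin 4) n (fun L => lampEx symMv L (fun f : ℤ → H2 =>
        T symMv n (fun a4 => Ps χ d a0 a1 a2 ⟨f, posL symMv L⟩ a4))) := by
    refine (mvEx_isExp n).mono fun L => ?_
    simp only [Pi.smul_apply, smul_eq_mul]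
    by_cases hL : strip symMv R L ∧ reach symMv r L
    swap
    · rw [if_neg hL, mul_zero]
      exact (lampEx_isExp symMv L).nonneg _ fun f => (T_isExp symMv n).nonneg _ fun a4 =>
        Ps_nonneg hd _ _ _ _ _
    rw [if_pos hL, mul_one]
    rw [lampEx_avg symMv L 0 (reach_vis hr1 hL.2 0 le_rfl (by omega))]
    refine lampEx_ge_of_support symMv L _ _ fun f hf => ?_
    have hgf := good_of_strip hL.1 hf
    -- unfold the second expectation
    have e1 : (Fintype.card H2 : ℝ)⁻¹ * ∑ u : H2, T symMv n (fun a4 =>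
        Ps χ d a0 a1 a2 ⟨f * Pi.mulSingle 0 u, posL symMv L⟩ a4) =
        mvEx (Fin 4) n (fun L' => (Fintype.card H2 : ℝ)⁻¹ * ∑ u : H2, lampEx symMv L' (fun f' =>
          Ps χ d a0 a1 a2 ⟨f * Pi.mulSingle 0 u, posL symMv L⟩ ⟨f', posL symMv L'⟩)) := by
      have : (fun L' => (Fintype.card H2 : ℝ)⁻¹ * ∑ u : H2, lampEx symMv L' (fun f' =>
          Ps χ d a0 a1 a2 ⟨f * Pi.mulSingle 0 u, posL symMv L⟩ ⟨f', posL symMv L'⟩)) =
          (Fintype.card H2 : ℝ)⁻¹ • ∑ u : H2, (fun L' => lampEx symMv L' (fun f' =>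
          Ps χ d a0 a1 a2 ⟨f * Pi.mulSingle 0 u, posL symMv L⟩ ⟨f', posL symMv L'⟩)) := by
        ext L'; simp
      rw [this, map_smul, map_sum, smul_eq_mul]
      rfl
    rw [e1]
    have e2 : e * (1 / 4) = mvEx (Fin 4) n ((1 / 4 : ℝ) • fun L' =>
        if strip symMv R L' ∧ reach symMv r L' then (1 : ℝ) else 0) := by
      rw [map_smul, smul_eq_mul, he]; ring
    rw [e2]
    refine (mvEx_isExp n).mono fun L' => ?_
    simp only [Pi.smul_apply, smul_eq_mul]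
    by_cases hL' : strip symMv R L' ∧ reach symMv r L'
    swap
    · rw [if_neg hL', mul_zero]
      refine mul_nonneg (by positivity) (Finset.sum_nonneg fun u _ => ?_)
      exact (lampEx_isExp symMv L').nonneg _ fun f' => Ps_nonneg hd _ _ _ _ _
    rw [if_pos hL', mul_one]
    -- average over the second toggle
    have hvis : vis symMv L' (d - a2.pos) := reach_vis hr1 hL'.2 _ (by omega) (by omega)
    have e3 : (Fintype.card H2 : ℝ)⁻¹ * ∑ u : H2, lampEx symMv L' (fun f' =>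
          Ps χ d a0 a1 a2 ⟨f * Pi.mulSingle 0 u, posL symMv L⟩ ⟨f', posL symMv L'⟩) =
        lampEx symMv L' (fun f' => (1 / 4 : ℝ) *
          dsum χ d a0 a1 a2 f f' (posL symMv L) (posL symMv L') (d - a2.pos)) := by
      have h3 : ∀ u ∈ (Finset.univ : Finset H2), lampEx symMv L' (fun f' =>
          Ps χ d a0 a1 a2 ⟨f * Pi.mulSingle 0 u, posL symMv L⟩ ⟨f', posL symMv L'⟩) =
          lampEx symMv L' (fun f' => (1 / 2 : ℝ) * ∑ u' : H2,
          P2 χ d a0 a1 a2 f f' (posL symMv L) (posL symMv L') (d - a2.pos) u u') := by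
        intro u _
        rw [lampEx_avg symMv L' (d - a2.pos) hvis, hcardH]
        rfl
      rw [Finset.sum_congr rfl h3, hcardH, ← map_sum, ← smul_eq_mul, ← map_smul]
      congr 1
      ext f'
      simp only [Pi.smul_apply, Finset.sum_apply, smul_eq_mul, dsum]
      rw [← Finset.mul_sum]
      ring
    rw [e3]
    refine lampEx_ge_of_support symMv L' _ _ fun f' hf' => ?_
    have hgf' := good_of_strip hL'.1 hf'
    have h4 := one_le_dsum hr hχ hd h0 h0' h1 h1' h2 h2' h2'' hgf hgf'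
    linarith
  refine le_trans ?_ step1
  rw [map_smul, smul_eq_mul, ← he]
  apply le_of_eq; ring

end

end Pool.Agent.Q93.RW
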