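import Pool.Agent.Q93.RW.Osc2

/-!
# Oscillation
-/

namespace Pool.Agent.Q93.RW

open Real Filter Topology

set_option linter.unusedSectionVars false

noncomputable section

theorem pn_le_one (χ : ℕ → ZMod 2) (n : ℕ) : pn χ n ≤ 1 := by
  unfold pn
  have h := T_isExp (H := H2) symMv n
  refine h.le_const fun a0 => h.le_const fun a1 => h.le_const fun a2 => h.le_const fun a3 =>
    h.le_const fun a4 => ?_
  split_ifs <;> norm_num

theorem pn_nonneg (χ : ℕ → ZMod 2) (n : ℕ) : 0 ≤ pn χ n := by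
  unfold pn
  have h := T_isExp (H := H2) symMv n
  refine h.const_le fun a0 => h.const_le fun a1 => h.const_le fun a2 => h.const_le fun a3 =>
    h.const_le fun a4 => ?_
  split_ifs <;> norm_num

theorem pi_sq_lt : π ^ 2 < 10 := by
  have h1 := pi_lt_d2
  have h2 := pi_pos
  nlinarith

open Classical in
theorem cx_bound (r : ℕ) (hr : 1 ≤ r) :
    (1 / 4) * exp (-(450 * π ^ 2 / 8)) ≤
      mvEx (Fin 4) (28800 * r ^ 2)
        (fun L => if strip symMv (8 * r - 1) L ∧ reach symMv r L then 1 else 0) := by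
  have h1 := strip_reach (8 * r - 1) r (28800 * r ^ 2) hr
  have h2 := strip_lower (8 * r - 1) (28800 * r ^ 2)
  have h3 := lam_lower (8 * r - 1) 450 (28800 * r ^ 2) (by omega) (by
    have : 8 * r - 1 + 1 = 8 * r := by omega
    rw [this]; apply le_of_eq; ring)
  have h4 := strip_upper (r - 1) (28800 * r ^ 2)
  have hr' : (0 : ℝ) < r := by exact_mod_cast hr
  have h5 : ((28800 * r ^ 2 : ℕ) : ℝ) / (16 * (((r - 1 : ℕ) : ℝ) + 1) ^ 2) = 1800 := by
    rw [Nat.cast_sub hr]; push_cast
    have : (r : ℝ) - 1 + 1 = r := by ring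
    rw [this]; field_simp; norm_num
  rw [h5] at h4
  have h6 : 4 * exp (-(1800 : ℝ)) ≤ exp (-(450 * π ^ 2 / 8)) := by
    have h7 : (4 : ℝ) ≤ exp 3 := by
      have := add_one_le_exp (3 : ℝ); linarith
    calc 4 * exp (-(1800 : ℝ)) ≤ exp 3 * exp (-(1800 : ℝ)) :=
          mul_le_mul_of_nonneg_right h7 (exp_pos _).le
      _ = exp (3 + -1800) := (exp_add _ _).symm
      _ ≤ _ := by
        apply exp_le_exp.mpr
        have := pi_sq_lt
        linarith
  push_cast at h3
  refine le_trans ?_ h1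
  have h8 := h3.trans h2
  linarith

open Classical in
theorem cy_bound (r : ℕ) (hr : 1 ≤ r) :
    (1 / 8) * exp (-(1800 * π ^ 2 / 8)) ≤
      mvEx (Fin 4) (28800 * r ^ 2)
        (fun L => if strip symMv (8 * r - 1) L ∧ 0 < posL symMv L then 1 else 0) := by
  have hn : 28800 * r ^ 2 = (28800 * r ^ 2 - 1) + 1 := by
    have : 1 ≤ r ^ 2 := Nat.one_le_pow _ _ hr
    omega
  have hR : 8 * r - 1 = (8 * r - 2) + 1 := by omega
  have h1 := strip_positive (8 * r - 2) (28800 * r ^ 2 - 1)
  rw [← hn, ← hR] at h1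
  refine le_trans ?_ h1
  have h2 := strip_lower (8 * r - 2) (28800 * r ^ 2 - 1)
  have h3 := lam_lower (8 * r - 2) 1800 (28800 * r ^ 2 - 1) (by omega) (by
    have h4 : 8 * r - 2 + 1 = 8 * r - 1 := by omega
    rw [h4]
    have h5 : 7 * r ≤ 8 * r - 1 := by omega
    have h6 : (7 * r) ^ 2 ≤ (8 * r - 1) ^ 2 := Nat.pow_le_pow_left h5 2
    have h7 : 28800 * r ^ 2 ≤ 1800 * (7 * r) ^ 2 := by nlinarith [sq_nonneg r]
    omega)
  push_cast at h3
  have := h3.trans h2
  linarith

open Classical in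
theorem T_good_pos (R n : ℕ) :
    mvEx (Fin 4) n (fun L => if strip symMv R L ∧ 0 < posL symMv L then 1 else 0) ≤
      T (H := H2) symMv n (fun a => if Good R a ∧ 0 < a.pos then 1 else 0) := by
  rw [T_apply]
  refine (mvEx_isExp n).mono fun L => ?_
  split_ifs with h
  · refine lampEx_ge_of_support symMv L _ _ fun f hf => ?_
    rw [if_pos ⟨good_of_strip h.1 hf, h.2⟩]
  · exact (lampEx_isExp symMv L).nonneg _ fun f => by split_ifs <;> norm_num

open Classical in
theorem T_good_neg (R n : ℕ) :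
    mvEx (Fin 4) n (fun L => if strip symMv R L ∧ posL symMv L < 0 then 1 else 0) ≤
      T (H := H2) symMv n (fun a => if Good R a ∧ a.pos < 0 then 1 else 0) := by
  rw [T_apply]
  refine (mvEx_isExp n).mono fun L => ?_
  split_ifs with h
  · refine lampEx_ge_of_support symMv L _ _ fun f hf => ?_
    rw [if_pos ⟨good_of_strip h.1 hf, h.2⟩]
  · exact (lampEx_isExp symMv L).nonneg _ fun f => by split_ifs <;> norm_num

/-- The size of the gap. -/
def gapε : ℝ := ((1 / 8) * exp (-(1800 * π ^ 2 / 8))) * (((1 / 8) * exp (-(1800 * π ^ 2 / 8))) *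
  ((1 / 15360) * (((1 / 4) * exp (-(450 * π ^ 2 / 8))) *
    (((1 / 4) * exp (-(450 * π ^ 2 / 8))) * (1 / 4)))))

theorem gapε_pos : 0 < gapε := by unfold gapε; positivity

theorem gap (r : ℕ) (χ : ℕ → ZMod 2) (hr : 1 ≤ r) (hχ : ∀ k, 8 * r - 1 < k → χ k = 0) :
    ∃ d : ℕ, 5 * (8 * r - 1) < d ∧
      pn (Function.update χ d 1) (28800 * r ^ 2) ≤ pn χ (28800 * r ^ 2) - gapε := by
  classical
  set n := 28800 * r ^ 2 with hn
  set R := 8 * r - 1 with hR
  obtain ⟨j, hj⟩ := window r hr
  rw [← hn, ← hR] at hj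
  set d : ℕ := (j + 1) * r with hd
  have hdcast : ((d : ℕ) : ℤ) = ((j : ℤ) + 1) * r := by rw [hd]; push_cast; ring
  have hd1 : 5 * R < d := by
    by_contra hno
    have hz : mvEx (Fin 4) n (fun L => if ((5 * R : ℕ) : ℤ) < posL symMv L ∧
      (j * r : ℤ) < posL symMv L ∧ posL symMv L ≤ ((j + 1) * r : ℤ) then (1 : ℝ) else 0) =
        mvEx (Fin 4) n (fun _ => (0 : ℝ)) := by
      congr 1
      ext L
      rw [if_neg]
      rintro ⟨h1, _, h3⟩
      rw [← hdcast] at h3
      omega
    rw [hz, (mvEx_isExp n).const] at hj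
    norm_num at hj
  refine ⟨d, hd1, ?_⟩
  have hχd : χ d = 0 := hχ d (by omega)
  set g0 : W H2 → ℝ := fun a => if Good R a ∧ 0 < a.pos then 1 else 0 with hg0
  set g1 : W H2 → ℝ := fun a => if Good R a ∧ a.pos < 0 then 1 else 0 with hg1
  set g2 : W H2 → ℝ := fun a => if ((5 * R : ℕ) : ℤ) < a.pos ∧
      (j * r : ℤ) < a.pos ∧ a.pos ≤ ((j + 1) * r : ℤ) then 1 else 0 with hg2
  set e : ℝ := mvEx (Fin 4) n (fun L => if strip symMv R L ∧ reach symMv r L then 1 else 0) with he
  have hcx : (1 / 4) * exp (-(450 * π ^ 2 / 8)) ≤ e := cx_bound r hr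
  have hcy0 : (1 / 8) * exp (-(1800 * π ^ 2 / 8)) ≤ T symMv n g0 :=
    (cy_bound r hr).trans (T_good_pos R n)
  have hcy1 : (1 / 8) * exp (-(1800 * π ^ 2 / 8)) ≤ T symMv n g1 := by
    refine le_trans ?_ (T_good_neg R n)
    rw [strip_negative]
    exact cy_bound r hr
  have hcz : 1 / 15360 ≤ T symMv n g2 := by
    have h2 := T_pos (H := H2) symMv n (fun x : ℤ => if ((5 * R : ℕ) : ℤ) < x ∧
      (j * r : ℤ) < x ∧ x ≤ ((j + 1) * r : ℤ) then (1 : ℝ) else 0)
    rw [hg2, h2]
    exact hj
  have hexp := T_isExp (H := H2) symMv n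
  -- the difference
  have hsub : ∀ F F' : W H2 → ℝ, T symMv n (fun a => F a - F' a) = T symMv n F - T symMv n F' :=
    fun F F' => map_sub _ F F'
  have hdiff : T symMv n (fun a0 => T symMv n (fun a1 => T symMv n (fun a2 => T symMv n (fun a3 =>
        T symMv n (fun a4 => Ps χ d a0 a1 a2 a3 a4))))) =
        pn χ n - pn (Function.update χ d 1) n := by
    unfold Ps pn
    simp only [hsub]
  have hinner : ∀ a0 a1 a2 : W H2, g0 a0 * (g1 a1 * (g2 a2 * (e * (e * (1 / 4))))) ≤
      T symMv n (fun a3 => T symMv n (fun a4 => Ps χ d a0 a1 a2 a3 a4)) := by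
    intro a0 a1 a2
    have hnn : 0 ≤ T symMv n (fun a3 => T symMv n (fun a4 => Ps χ d a0 a1 a2 a3 a4)) :=
      hexp.nonneg _ fun a3 => hexp.nonneg _ fun a4 => Ps_nonneg hχd _ _ _ _ _
    simp only [hg0, hg1, hg2]
    by_cases h0 : Good R a0 ∧ 0 < a0.pos
    · by_cases h1 : Good R a1 ∧ a1.pos < 0
      · by_cases h2 : ((5 * R : ℕ) : ℤ) < a2.pos ∧
            (j * r : ℤ) < a2.pos ∧ a2.pos ≤ ((j + 1) * r : ℤ)
        · rw [if_pos h0, if_pos h1, if_pos h2, one_mul, one_mul, one_mul]
          refine inner_lower hr (by omega) hχ hχd h0.1 h0.2 h1.1 h1.2 ?_ ?_ ?_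
          · have := h2.1; push_cast at this; exact this
          · rw [hdcast]; have := h2.2.1; linarith
          · rw [hdcast]; exact h2.2.2
        · rw [if_neg h2]; simpa using hnn
      · rw [if_neg h1]; simpa using hnn
    · rw [if_neg h0]; simpa using hnn
  have hmulT : ∀ (c : ℝ) (F : W H2 → ℝ), T symMv n (fun a => F a * c) = T symMv n F * c := by
    intro c F
    have : (fun a => F a * c) = c • F := by ext a; simp [mul_comm]
    rw [this, map_smul, smul_eq_mul, mul_comm]
  have hmulT' : ∀ (c : ℝ) (F : W H2 → ℝ), T symMv n (fun a => c * F a) = c * T symMv n F := by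
    intro c F
    have : (fun a => c * F a) = c • F := by ext a; simp
    rw [this, map_smul, smul_eq_mul]
  have hprod : T symMv n (fun a0 => T symMv n (fun a1 => T symMv n (fun a2 =>
      g0 a0 * (g1 a1 * (g2 a2 * (e * (e * (1 / 4)))))))) =
      T symMv n g0 * (T symMv n g1 * (T symMv n g2 * (e * (e * (1 / 4))))) := by
    simp only [hmulT', hmulT]
  have hle : T symMv n g0 * (T symMv n g1 * (T symMv n g2 * (e * (e * (1 / 4))))) ≤
      pn χ n - pn (Function.update χ d 1) n := by
    rw [← hprod, ← hdiff]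
    exact hexp.mono fun a0 => hexp.mono fun a1 => hexp.mono fun a2 => hinner a0 a1 a2
  have hge : gapε ≤ T symMv n g0 * (T symMv n g1 * (T symMv n g2 * (e * (e * (1 / 4))))) := by
    unfold gapε
    have hA : 0 < (1 / 8) * exp (-(1800 * π ^ 2 / 8)) := by positivity
    have hB : 0 < (1 / 4) * exp (-(450 * π ^ 2 / 8)) := by positivity
    have he0 : 0 ≤ e := hB.le.trans hcx
    have ht0 : 0 ≤ T symMv n g0 := hA.le.trans hcy0
    have ht1 : 0 ≤ T symMv n g1 := hA.le.trans hcy1
    have ht2 : 0 ≤ T symMv n g2 := le_trans (by norm_num) hcz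
    gcongr
  linarith

/-- Some choice of the cocycle gives a non-convergent sequence of probabilities. -/
theorem exists_osc : ∃ χ : ℕ → ZMod 2, ¬ ∃ l : ℝ, Tendsto (pn χ) atTop (𝓝 l) := by
  classical
  by_contra hall
  push Not at hall
  have hε := gapε_pos
  have hN : ∀ χ : ℕ → ZMod 2, ∃ N : ℕ, ∀ m, N ≤ m → ∀ n, N ≤ n →
      |pn χ m - pn χ n| < gapε / 2 := by
    intro χ
    obtain ⟨l, hl⟩ := hall χ
    have hc := hl.cauchySeq
    rw [Metric.cauchySeq_iff] at hc
    obtain ⟨N, hN⟩ := hc (gapε / 2) (by linarith)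
    exact ⟨N, fun m hm n hn => by simpa [Real.dist_eq] using hN m hm n hn⟩
  choose N hN using hN
  have hgap := gap
  choose! dd hdd1 hdd2 using hgap
  -- the state sequence
  let rr : ℕ → (ℕ → ZMod 2) × ℕ → ℕ := fun j s => s.2 + 5 * (N s.1 + j) + 1
  let st : ℕ → (ℕ → ZMod 2) × ℕ := fun j => Nat.rec (0, 0) (fun j s =>
    (Function.update s.1 (dd (rr j s) s.1) 1, dd (rr j s) s.1 + 5 * (28800 * (rr j s) ^ 2))) j
  have st0 : st 0 = (0, 0) := rfl
  have sts : ∀ j, st (j + 1) = (Function.update (st j).1 (dd (rr j (st j)) (st j).1) 1,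
    dd (rr j (st j)) (st j).1 + 5 * (28800 * (rr j (st j)) ^ 2)) := fun j => rfl
  -- abbreviations
  let X : ℕ → (ℕ → ZMod 2) := fun j => (st j).1
  let B : ℕ → ℕ := fun j => (st j).2
  let r : ℕ → ℕ := fun j => B j + 5 * (N (X j) + j) + 1
  let d : ℕ → ℕ := fun j => dd (r j) (X j)
  let n : ℕ → ℕ := fun j => 28800 * (r j) ^ 2
  have hX : ∀ j, X (j + 1) = Function.update (X j) (d j) 1 := fun j => rfl
  have hB : ∀ j, B (j + 1) = d j + 5 * n j := fun j => rfl
  have hr1 : ∀ j, 1 ≤ r j := fun j => by simp only [r]; omega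
  have hzero : ∀ j, ∀ k, B j < k → X j k = 0 := by
    intro j
    induction j with
    | zero => intro k _; rfl
    | succ j ih =>
      intro k hk
      rw [hX]
      rw [hB] at hk
      have hz' : ∀ k, 8 * r j - 1 < k → X j k = 0 := fun k hk => ih k (by
        have : B j ≤ r j := by simp only [r]; omega
        have := hr1 j
        omega)
      have h1 : 5 * (8 * r j - 1) < d j := hdd1 (r j) (X j) (hr1 j) hz'
      have h2 : k ≠ d j := by omega
      rw [Function.update_of_ne h2]
      apply ih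
      have h3 : B j ≤ r j := by simp only [r]; omega
      have := hr1 j
      omega
  have hz' : ∀ j k, 8 * r j - 1 < k → X j k = 0 := fun j k hk => hzero j k (by
        have : B j ≤ r j := by simp only [r]; omega
        have := hr1 j
        omega)
  have hd1 : ∀ j, 5 * (8 * r j - 1) < d j := fun j => hdd1 (r j) (X j) (hr1 j) (hz' j)
  have hd2 : ∀ j, pn (X (j + 1)) (n j) ≤ pn (X j) (n j) - gapε := fun j =>
    hdd2 (r j) (X j) (hr1 j) (hz' j)
  have hdr : ∀ j, r j < d j := fun j => by have := hd1 j; have := hr1 j; omega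
  have hdB : ∀ j, B j < d j := fun j => by
    have := hdr j
    have : B j ≤ r j := by simp only [r]; omega
    omega
  have hdmono : ∀ j, d j < d (j + 1) := fun j => by
    have h1 := hdB (j + 1)
    rw [hB] at h1
    omega
  have hdstrict : StrictMono d := strictMono_nat_of_lt_succ hdmono
  have hdj : ∀ j, j ≤ d j := fun j => hdstrict.id_le j
  have hdj' : ∀ j, j < d j := by
    intro j
    have h1 := hdr j
    have : j ≤ r j := by simp only [r]; omega
    omega
  -- stability
  have hstab : ∀ j i, j ≤ i → ∀ k, k < d j → X i k = X j k := by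
    intro j i hji
    induction hji with
    | refl => intro k _; rfl
    | step h ih =>
      rename_i i'
      intro k hk
      rw [Nat.succ_eq_add_one, hX]
      have : d j ≤ d i' := hdstrict.monotone h
      rw [Function.update_of_ne (by omega)]
      exact ih k hk
  let Xinf : ℕ → ZMod 2 := fun k => X k k
  have hinf : ∀ j k, k < d j → Xinf k = X j k := by
    intro j k hk
    rcases le_total j k with h | h
    · exact hstab j k h k hk
    · exact (hstab k j h k (hdj' k)).symm
  set J := N Xinf with hJ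
  set m := N (X J) + J with hm
  -- time m
  have h1 : pn Xinf m = pn (X J) m := by
    refine pn_local _ _ _ fun k hk => hinf J k ?_
    have : 5 * m < r J := by simp only [r, hm]; omega
    have := hdr J
    omega
  have h2 : pn Xinf (n J) = pn (X (J + 1)) (n J) := by
    refine pn_local _ _ _ fun k hk => hinf (J + 1) k ?_
    have h3 := hdB (J + 1)
    rw [hB] at h3
    omega
  have hrn : r J ≤ n J := by
    calc r J ≤ (r J) ^ 2 := Nat.le_self_pow (by norm_num) _
      _ ≤ 28800 * (r J) ^ 2 := Nat.le_mul_of_pos_left _ (by norm_num)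
  have hNm : N (X J) ≤ m := by omega
  have hNn : N (X J) ≤ n J := by
    have : N (X J) ≤ r J := by simp only [r]; omega
    omega
  have h3 := hN (X J) m hNm (n J) hNn
  have hJm : J ≤ m := by omega
  have hJn : J ≤ n J := by
    have : J ≤ r J := by simp only [r]; omega
    omega
  have h4 := hN Xinf m hJm (n J) hJn
  have h5 := hd2 J
  rw [h1, h2] at h4
  have h6 := abs_lt.mp h3
  have h7 := abs_lt.mp h4
  linarith [h6.1, h6.2, h7.1, h7.2]

end

end Pool.Agent.Q93.RW
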