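import Pool.Agent.Q93.RW.Est

/-!
# Expectations of functions of the wreath product coordinates
-/

namespace Pool.Agent.Q93.RW

open Real

set_option linter.unusedSectionVars false

noncomputable section

variable {G : Type} [Group G] {H : Type} [Group H] [Fintype H]
variable {M : Type} [Fintype M] [Nonempty M] (mv : M → ℤ)

/-- Expectation of `F(lamps, position)` after `n` steps. -/
def T (n : ℕ) : (W H → ℝ) →ₗ[ℝ] ℝ :=
  mvEx M n ∘ₗ LinearMap.pi (fun L => lampEx mv L ∘ₗ
    LinearMap.funLeft ℝ ℝ (fun f : ℤ → H => (⟨f, posL mv L⟩ : W H)))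

theorem T_apply (n : ℕ) (F : W H → ℝ) :
    T mv n F = mvEx M n (fun L => lampEx mv L (fun f => F ⟨f, posL mv L⟩)) := rfl

theorem T_isExp (n : ℕ) : IsExp (T (H := H) mv n) := by
  refine ⟨fun F hF => ?_, ?_⟩
  · rw [T_apply]
    exact (mvEx_isExp n).nonneg _ fun L => (lampEx_isExp mv L).nonneg _ fun f => hF _
  · rw [T_apply]
    have : (fun L : List M => lampEx (H := H) mv L (fun _ => (1 : ℝ))) = fun _ => 1 := by
      ext L; exact (lampEx_isExp mv L).one
    rw [this, (mvEx_isExp n).one]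

theorem T_pos (n : ℕ) (F : ℤ → ℝ) :
    T (H := H) mv n (fun a => F a.pos) = mvEx M n (fun L => F (posL mv L)) := by
  rw [T_apply]
  congr 1
  ext L
  exact (lampEx_isExp (H := H) mv L).const (F (posL mv L))

theorem ex_T (pr : G →* W H) (s : M × H × H → G)
    (hs : ∀ x : M × H × H, pr (s x) = stepW (mv x.1) x.2.1 x.2.2) (n : ℕ) (F : W H → ℝ) :
    ex (convPow (stepMeas s) n) (fun g => F (pr g)) = T mv n F := ex_convPow mv pr s hs n F

open Classical in
theorem lawProb_T5 (pr : G →* W H) (s : M × H × H → G)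
    (hs : ∀ x : M × H × H, pr (s x) = stepW (mv x.1) x.2.1 x.2.2) (w : FreeGroup (Fin 5))
    (Q : W H → W H → W H → W H → W H → Prop)
    (hQ : ∀ g : Fin 5 → G, FreeGroup.lift g w = 1 ↔
      Q (pr (g 0)) (pr (g 1)) (pr (g 2)) (pr (g 3)) (pr (g 4))) (n : ℕ) :
    lawProb (convPow (stepMeas s) n) w =
      T mv n (fun a0 => T mv n (fun a1 => T mv n (fun a2 => T mv n (fun a3 => T mv n (fun a4 =>
        if Q a0 a1 a2 a3 a4 then 1 else 0))))) := by
  rw [lawProb_eq]
  simp only [exd]
  rw [← ex_T mv pr s hs n]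
  congr 1
  ext g0
  rw [← ex_T mv pr s hs n]
  congr 1
  ext g1
  rw [← ex_T mv pr s hs n]
  congr 1
  ext g2
  rw [← ex_T mv pr s hs n]
  congr 1
  ext g3
  rw [← ex_T mv pr s hs n]
  congr 1
  ext g4
  have := hQ (Fin.cons g0 (Fin.cons g1 (Fin.cons g2 (Fin.cons g3 (Fin.cons g4 ![])))))
  simp only [this]
  rfl

/-- The commutator `a b a⁻¹ b⁻¹`. -/
def cm {G : Type} [Group G] (a b : G) : G := a * b * a⁻¹ * b⁻¹

theorem map_cm {G G' : Type} [Group G] [Group G'] (f : G →* G') (a b : G) :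
    f (cm a b) = cm (f a) (f b) := by simp [cm]

theorem comm_lamp (x y : W H) (p : ℤ) : (cm x y).lamp p =
    x.lamp p * y.lamp (p - x.pos) * (x.lamp (p - y.pos))⁻¹ * (y.lamp p)⁻¹ := by
  unfold cm
  simp only [mul_lamp, inv_lamp, mul_pos, inv_pos]
  congr 3
  · congr 1; ring
  · ring

theorem comm_pos (x y : W H) : (cm x y).pos = 0 := by
  unfold cm
  simp only [mul_pos, inv_pos]; ring

theorem conj_lamp (z b : W H) (hb : b.pos = 0) (p : ℤ) : (z * b * z⁻¹).lamp p =
    z.lamp p * b.lamp (p - z.pos) * (z.lamp p)⁻¹ := by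
  simp only [mul_lamp, inv_lamp, mul_pos, hb]
  congr 2
  ring_nf

theorem conj_pos (z b : W H) (hb : b.pos = 0) : (z * b * z⁻¹).pos = 0 := by
  simp only [mul_pos, inv_pos, hb]; ring

theorem comm_eq_one_iff (a b : W H) (ha : a.pos = 0) (hb : b.pos = 0) :
    cm a b = 1 ↔ ∀ p, a.lamp p * b.lamp p = b.lamp p * a.lamp p := by
  have h0 : cm a b = 1 ↔ a * b = b * a := by
    unfold cm
    rw [mul_inv_eq_one, mul_inv_eq_iff_eq_mul]
  rw [h0]
  constructor
  · intro h p
    have := congrArg (fun c : W H => c.lamp p) h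
    simpa [mul_lamp, ha, hb] using this
  · intro h
    ext p
    · simpa [mul_lamp, ha, hb] using h p
    · simp [mul_pos, ha, hb]

/-- Good coordinates: everything within `[-R, R]`. -/
def Good (R : ℕ) (a : W H) : Prop := (∀ p : ℤ, (R : ℤ) < |p| → a.lamp p = 1) ∧ |a.pos| ≤ R

open Classical in
theorem good_lower (R n : ℕ) :
    ((1 + cos (π / (2 * (R + 1)))) / 2) ^ n ≤
      T (H := H) symMv n (fun a => if Good R a then 1 else 0) := by
  refine (strip_lower R n).trans ?_
  rw [T_apply]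
  refine (mvEx_isExp n).mono fun L => ?_
  split_ifs with h
  · have h1 : lampEx symMv L (fun f : ℤ → H => if Good R (⟨f, posL symMv L⟩ : W H) then
        (1 : ℝ) else 0) = lampEx symMv L (fun _ : ℤ → H => (1 : ℝ)) := by
      refine lampEx_support symMv L _ _ ?_
      intro f hf
      rw [if_pos]
      refine ⟨fun p hp => hf p fun hv => ?_, strip_pos h⟩
      have := strip_vis h p hv
      omega
    rw [h1, (lampEx_isExp symMv L).one]
  · exact (lampEx_isExp symMv L).nonneg _ fun f => by split_ifs <;> norm_num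

end

end Pool.Agent.Q93.RW
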